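import Mathlib

/-!
# Continuous logic of tracial von Neumann algebras: definitions

This file contains every definition used in the statement of the main theorem:

* `Tm`, `Fml`, `Fml.eval`: the continuous first-order language of tracial von Neumann algebras
  (one sort for each operator-norm ball, metric `‖x‖₂`, the *-algebra operations, the real and
  imaginary part of the trace), its formulas and their values;
* `TracialVN`: tracial von Neumann algebras;
* `theory`, `Models`, `ElemEmb`: theory, models, elementary embeddings;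
* `IsType`, `Divides`, `IsSimple`: complete types, dividing and simplicity;
* `IsHyperfiniteII1`, `hyperfiniteR`: the hyperfinite II₁ factor, as the group von Neumann
  algebra of the group of finitary permutations of the natural numbers.
-/

set_option autoImplicit false

open scoped InnerProductSpace

namespace Pool.Agent.TVN

/-! ## Syntax -/

/-- Terms of the language: *-polynomials with complex coefficients, with variables from `V`. -/
inductive Tm (V : Type) : Type
  | var : V → Tm V
  | zero : Tm V
  | one : Tm V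
  | add : Tm V → Tm V → Tm V
  | mul : Tm V → Tm V → Tm V
  | adj : Tm V → Tm V
  | smul : ℂ → Tm V → Tm V

/-- Formulas of continuous logic in the language of tracial von Neumann algebras, with free
variables from `V` and with `k` variables bound by the quantifiers in whose scope we are
(so a formula is an element of `Fml V 0`, and a sentence is an element of `Fml Empty 0`).
Atomic formulas: real and imaginary part of the trace of a term, `‖·‖₂`-distance of two terms.
Connectives: all continuous functions. Quantifiers: supremum and infimum over the operator norm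
ball of radius `n` (the sorts). -/
inductive Fml (V : Type) : ℕ → Type
  | reTr {k : ℕ} (t : Tm (V ⊕ Fin k)) : Fml V k
  | imTr {k : ℕ} (t : Tm (V ⊕ Fin k)) : Fml V k
  | dist {k : ℕ} (t s : Tm (V ⊕ Fin k)) : Fml V k
  | conn {k m : ℕ} (u : C(Fin m → ℝ, ℝ)) (φ : Fin m → Fml V k) : Fml V k
  | sup {k : ℕ} (n : ℕ) (φ : Fml V (k + 1)) : Fml V k
  | inf {k : ℕ} (n : ℕ) (φ : Fml V (k + 1)) : Fml V k

/-! ## Structures -/

/-- `Ω` is a trace vector for `A`: the vector state `τ(x) = ⟪Ω, x Ω⟫` satisfies `τ(x y) = τ(y x)`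
for `x, y` in `A`. -/
def IsTraceVector {H : Type} [NormedAddCommGroup H] [InnerProductSpace ℂ H] [CompleteSpace H]
    (A : VonNeumannAlgebra H) (Ω : H) : Prop :=
  ∀ x ∈ A, ∀ y ∈ A, ⟪Ω, x (y Ω)⟫_ℂ = ⟪Ω, y (x Ω)⟫_ℂ

/-- `Ω` is a separating vector for `A`: for `x` in `A`, `x Ω = 0` only if `x = 0`. -/
def IsSeparatingVector {H : Type} [NormedAddCommGroup H] [InnerProductSpace ℂ H] [CompleteSpace H]
    (A : VonNeumannAlgebra H) (Ω : H) : Prop :=
  ∀ x ∈ A, x Ω = 0 → x = 0

/-- A tracial von Neumann algebra `(alg, τ)`, given concretely: a von Neumann algebra `alg` of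
operators on a Hilbert space `H`, with a unit vector `Ω` such that the vector state
`τ(x) = ⟪Ω, x Ω⟫` is a trace on `alg` and is faithful (`x Ω = 0` only for `x = 0`, `x` in `alg`).
Vector states are normal, so `τ` is a faithful normal tracial state; conversely, by the GNS
construction, every von Neumann algebra with a faithful normal tracial state is (up to a trace
preserving isomorphism) of this form. -/
structure TracialVN where
  /-- the Hilbert space -/
  H : Type
  [instNACG : NormedAddCommGroup H]
  [instIPS : InnerProductSpace ℂ H]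
  [instCS : CompleteSpace H]
  /-- the von Neumann algebra -/
  alg : VonNeumannAlgebra H
  /-- the trace vector -/
  Ω : H
  norm_Ω : ‖Ω‖ = 1
  tracial : IsTraceVector alg Ω
  faithful : IsSeparatingVector alg Ω

attribute [instance] TracialVN.instNACG TracialVN.instIPS TracialVN.instCS

/-- The algebra of all bounded operators on the underlying Hilbert space. -/
abbrev TracialVN.Op (M : TracialVN) : Type := M.H →L[ℂ] M.H

/-- The trace. -/
noncomputable def TracialVN.tr (M : TracialVN) (x : M.Op) : ℂ := ⟪M.Ω, x M.Ω⟫_ℂ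

/-- The 2-norm: `‖x‖₂ = τ(x⋆ x)^{1/2} = ‖x Ω‖`. -/
noncomputable def TracialVN.norm2 (M : TracialVN) (x : M.Op) : ℝ := ‖x M.Ω‖

/-- The sort of index `n`: the elements of operator norm at most `n`. -/
abbrev TracialVN.Ball (M : TracialVN) (n : ℕ) : Type := {x : M.Op // x ∈ M.alg ∧ ‖x‖ ≤ n}

/-! ## Semantics -/

/-- Value of a term. -/
noncomputable def Tm.eval {V : Type} (M : TracialVN) (v : V → M.Op) : Tm V → M.Op
  | .var x => v x
  | .zero => 0
  | .one => 1
  | .add t s => t.eval M v + s.eval M v
  | .mul t s => t.eval M v * s.eval M v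
  | .adj t => star (t.eval M v)
  | .smul c t => c • t.eval M v

/-- Value of a formula in `M` under an assignment `v` of the free variables (and an assignment
`w` of the bound variables in scope). -/
noncomputable def Fml.eval {V : Type} (M : TracialVN) (v : V → M.Op) :
    {k : ℕ} → Fml V k → (Fin k → M.Op) → ℝ
  | _, .reTr t, w => (M.tr (t.eval M (Sum.elim v w))).re
  | _, .imTr t, w => (M.tr (t.eval M (Sum.elim v w))).im
  | _, .dist t s, w => M.norm2 (t.eval M (Sum.elim v w) - s.eval M (Sum.elim v w))
  | _, .conn u φ, w => u fun i => (φ i).eval M v w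
  | _, .sup n φ, w => ⨆ x : M.Ball n, φ.eval M v (Fin.snoc w x.1)
  | _, .inf n φ, w => ⨅ x : M.Ball n, φ.eval M v (Fin.snoc w x.1)

/-- Value of a formula without bound variables in scope. -/
noncomputable abbrev val (M : TracialVN) {V : Type} (φ : Fml V 0) (v : V → M.Op) : ℝ :=
  φ.eval M v Fin.elim0

/-- The theory of `M`: the set of all sentences that take the value `0` in `M`. -/
def theory (M : TracialVN) : Set (Fml Empty 0) := {φ | val M φ Empty.elim = 0}

/-- `M` is a model of the set of sentences `T`. -/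
def Models (M : TracialVN) (T : Set (Fml Empty 0)) : Prop := ∀ φ ∈ T, val M φ Empty.elim = 0

/-- Elementary embeddings `M → N`: maps of the algebras, respecting the sorts and the values of
all formulas. -/
structure ElemEmb (M N : TracialVN) where
  /-- the underlying map -/
  toFun : M.Op → N.Op
  mem : ∀ x ∈ M.alg, toFun x ∈ N.alg
  norm_le : ∀ x ∈ M.alg, ∀ n : ℕ, ‖x‖ ≤ n → ‖toFun x‖ ≤ n
  val_eq : ∀ (m : ℕ) (φ : Fml (Fin m) 0) (v : Fin m → M.Op), (∀ i, v i ∈ M.alg) →
    val N φ (fun i => toFun (v i)) = val M φ v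

/-! ## Types, dividing, simplicity -/

/-- `p` is a complete type over the parameter set `B` (a set of elements of `M`) in `k` variables
of sorts `s 0, …, s (k-1)`: `p` assigns a real number to every formula with parameters from `B`,
and every finite part of `p` is approximately realised by elements of the right sorts in `M`. -/
def IsType (M : TracialVN) (B : Set M.Op) {k : ℕ} (s : Fin k → ℕ) (p : Fml (Fin k ⊕ B) 0 → ℝ) :
    Prop :=
  ∀ (Φ : Finset (Fml (Fin k ⊕ B) 0)) (ε : ℝ), 0 < ε →
    ∃ x : (i : Fin k) → M.Ball (s i), ∀ φ ∈ Φ,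
      |val M φ (Sum.elim (fun i => (x i).1) (fun b => b.1)) - p φ| < ε

/-- Let `p = p(x, B)` be a type over `B` and let `f 0, f 1, …` be copies of `B` in `N`. The union
of the `p(x, f i)` is consistent: every finite part of it is approximately realised in `N` by
elements of the right sorts. -/
def UnionConsistent (N : TracialVN) {B : Type} {k : ℕ} (s : Fin k → ℕ)
    (p : Fml (Fin k ⊕ B) 0 → ℝ) (f : ℕ → B → N.Op) : Prop :=
  ∀ (Φ : Finset (Fml (Fin k ⊕ B) 0)) (m : ℕ) (ε : ℝ), 0 < ε →
    ∃ x : (i : Fin k) → N.Ball (s i), ∀ φ ∈ Φ, ∀ i < m,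
      |val N φ (Sum.elim (fun j => (x j).1) (f i)) - p φ| < ε

/-- The sequence `f 0, f 1, …` of `B`-indexed tuples of elements of `N` is indiscernible over the
tuple `a` of elements of `N`. -/
def Indiscernible (N : TracialVN) {A B : Type} (a : A → N.Op) (f : ℕ → B → N.Op) : Prop :=
  ∀ (m : ℕ) (i j : Fin m → ℕ), StrictMono i → StrictMono j → ∀ φ : Fml (A ⊕ (Fin m × B)) 0,
    val N φ (Sum.elim a fun q => f (i q.1) q.2) = val N φ (Sum.elim a fun q => f (j q.1) q.2)

/-- The type `p = p(x, B)` over `B ⊆ M` divides over `A ⊆ B`: in some elementary extension `N` of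
`M` there is an `A`-indiscernible sequence `f 0, f 1, …` of copies of `B` (of the same sorts),
starting with `B` itself, such that the union of the `p(x, f i)` is inconsistent. -/
def Divides (M : TracialVN) (B : Set M.Op) {k : ℕ} (s : Fin k → ℕ) (p : Fml (Fin k ⊕ B) 0 → ℝ)
    (A : Set M.Op) : Prop :=
  ∃ (N : TracialVN) (e : ElemEmb M N) (f : ℕ → B → N.Op),
    (∀ i b, f i b ∈ N.alg ∧ ∀ n : ℕ, ‖b.1‖ ≤ n → ‖f i b‖ ≤ n) ∧
    (∀ b, f 0 b = e.toFun b.1) ∧
    Indiscernible N (fun a : A => e.toFun a.1) f ∧
    ¬ UnionConsistent N s p f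

/-- `A` is separable for the 2-norm. -/
def Separable2 (M : TracialVN) (A : Set M.Op) : Prop :=
  ∃ C ⊆ A, C.Countable ∧ ∀ a ∈ A, ∀ ε : ℝ, 0 < ε → ∃ c ∈ C, M.norm2 (a - c) < ε

/-- The theory `T` is simple: in every model, every complete type over a set `B` (in finitely many
variables of arbitrary sorts) does not divide over some separable subset of `B`. -/
def IsSimple (T : Set (Fml Empty 0)) : Prop :=
  ∀ M : TracialVN, Models M T → ∀ B : Set M.Op, B ⊆ M.alg →
    ∀ (k : ℕ) (s : Fin k → ℕ) (p : Fml (Fin k ⊕ B) 0 → ℝ), IsType M B s p →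
      ∃ A ⊆ B, Separable2 M A ∧ ¬ Divides M B s p A

/-! ## The hyperfinite II₁ factor -/

/-- The set `N` of elements of the algebra `E` has trivial centre: the elements of `N` that
commute with all elements of `N` are multiples of the identity. -/
def HasTrivialCentre {E : Type} [Ring E] [Algebra ℂ E] (N : Set E) : Prop :=
  ∀ x ∈ N, (∀ y ∈ N, x * y = y * x) → ∃ c : ℂ, x = c • (1 : E)

/-- The set `N` contains an infinite linearly independent sequence. -/
def IsInfiniteDim {E : Type} [Ring E] [Algebra ℂ E] (N : Set E) : Prop :=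
  ∃ x : ℕ → E, (∀ n, x n ∈ N) ∧ LinearIndependent ℂ x

/-- The set `N` is the double commutant of the union of an increasing sequence of finite
dimensional unital *-subalgebras of `E`. -/
def IsHyperfiniteIn {E : Type} [Ring E] [Algebra ℂ E] [StarRing E] [StarModule ℂ E] (N : Set E) :
    Prop :=
  ∃ A : ℕ → StarSubalgebra ℂ E, Monotone A ∧ (∀ n, FiniteDimensional ℂ (A n)) ∧
    Set.centralizer (Set.centralizer (⋃ n, (A n : Set E))) = N

/-- `M` is a hyperfinite II₁ factor: a hyperfinite, infinite dimensional factor (with a faithful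
normal tracial state). By the theorem of Murray and von Neumann such an `M` is unique up to trace
preserving isomorphism. -/
structure IsHyperfiniteII1 (M : TracialVN) : Prop where
  factor : HasTrivialCentre (M.alg : Set M.Op)
  infinite : IsInfiniteDim (M.alg : Set M.Op)
  hyperfinite : IsHyperfiniteIn (M.alg : Set M.Op)

/-- The Hilbert space `ℓ²(G)`. -/
abbrev ell2 (G : Type) : Type := lp (fun _ : G => ℂ) 2

theorem memlp_comp {G G' : Type} (e : G' ≃ G) (ξ : ell2 G) :
    Memℓp (fun g => (ξ : G → ℂ) (e g)) 2 := by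
  have h : Memℓp (fun g => (ξ : G → ℂ) g) 2 := lp.memℓp ξ
  rw [memℓp_gen_iff (by norm_num)] at h ⊢
  exact (e.summable_iff (f := fun i => ‖(ξ : G → ℂ) i‖ ^ (2 : ENNReal).toReal)).mpr h

/-- The unitary `ℓ²(G) → ℓ²(G')` induced by a bijection `e : G → G'`. -/
noncomputable def reindex {G G' : Type} (e : G ≃ G') : ell2 G ≃ₗᵢ[ℂ] ell2 G' where
  toFun ξ := ⟨fun g => (ξ : G → ℂ) (e.symm g), memlp_comp e.symm ξ⟩
  invFun ξ := ⟨fun g => (ξ : G' → ℂ) (e g), memlp_comp e ξ⟩
  map_add' ξ η := by ext g; rfl
  map_smul' c ξ := by ext g; rfl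
  left_inv ξ := by
    ext g
    change (ξ : G → ℂ) (e.symm (e g)) = ξ g
    rw [e.symm_apply_apply]
  right_inv ξ := by
    ext g
    change (ξ : G' → ℂ) (e (e.symm g)) = ξ g
    rw [e.apply_symm_apply]
  norm_map' ξ := by
    have h2 : 0 < (2 : ENNReal).toReal := by norm_num
    rw [lp.norm_eq_tsum_rpow h2, lp.norm_eq_tsum_rpow h2]
    congr 1
    exact e.symm.tsum_eq (fun i => ‖(ξ : G → ℂ) i‖ ^ (2 : ENNReal).toReal)

@[simp] theorem reindex_apply {G G' : Type} (e : G ≃ G') (ξ : ell2 G) (g : G') :
    (reindex e ξ : G' → ℂ) g = (ξ : G → ℂ) (e.symm g) := rfl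

/-- Left translation `λ_g` on `ℓ²(G)`: `(λ_g ξ)(k) = ξ(g⁻¹ k)`. -/
noncomputable def leftT {G : Type} [Group G] (g : G) : ell2 G →L[ℂ] ell2 G :=
  ((reindex (Equiv.mulLeft g)).toContinuousLinearEquiv : ell2 G →L[ℂ] ell2 G)

/-- Right translation `ρ_g` on `ℓ²(G)`: `(ρ_g ξ)(k) = ξ(k g)`. -/
noncomputable def rightT {G : Type} [Group G] (g : G) : ell2 G →L[ℂ] ell2 G :=
  ((reindex (Equiv.mulRight g⁻¹)).toContinuousLinearEquiv : ell2 G →L[ℂ] ell2 G)

theorem op_mul_apply {G : Type} (x y : ell2 G →L[ℂ] ell2 G) (ξ : ell2 G) :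
    (x * y) ξ = x (y ξ) := rfl

section Group

variable {G : Type} [Group G]

theorem leftT_apply (g : G) (ξ : ell2 G) (k : G) :
    (leftT g ξ : G → ℂ) k = (ξ : G → ℂ) (g⁻¹ * k) := rfl

theorem rightT_apply (g : G) (ξ : ell2 G) (k : G) :
    (rightT g ξ : G → ℂ) k = (ξ : G → ℂ) (k * g) := by
  change (ξ : G → ℂ) (k * (g⁻¹)⁻¹) = _
  rw [inv_inv]

open Classical in
/-- The basis vector `δ_g` of `ℓ²(G)`. -/
noncomputable def delta (g : G) : ell2 G := lp.single 2 g (1 : ℂ)

omit [Group G] in
open Classical in
theorem delta_apply (g k : G) : (delta g : G → ℂ) k = if k = g then 1 else 0 := by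
  unfold delta
  rw [lp.single_apply, Pi.single_apply]

theorem leftT_delta (g h : G) : leftT g (delta h) = delta (g * h) := by
  classical
  ext k
  rw [leftT_apply, delta_apply, delta_apply]
  simp [inv_mul_eq_iff_eq_mul]

theorem rightT_delta (g h : G) : rightT g (delta h) = delta (h * g⁻¹) := by
  classical
  ext k
  rw [rightT_apply, delta_apply, delta_apply]
  simp [eq_mul_inv_iff_mul_eq]

omit [Group G] in
theorem inner_delta_left (g : G) (ξ : ell2 G) : ⟪delta g, ξ⟫_ℂ = (ξ : G → ℂ) g := by
  classical
  have := lp.inner_single_left (𝕜 := ℂ) (G := fun _ : G => ℂ) g (1 : ℂ) ξ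
  unfold delta
  simpa using this

omit [Group G] in
theorem inner_delta_right (g : G) (ξ : ell2 G) :
    ⟪ξ, delta g⟫_ℂ = (starRingEnd ℂ) ((ξ : G → ℂ) g) := by
  rw [← inner_conj_symm, inner_delta_left]

omit [Group G] in
theorem ell2_ext_delta {F : Type*} [AddCommGroup F] [Module ℂ F] [TopologicalSpace F] [T2Space F]
    {S T : ell2 G →L[ℂ] F} (h : ∀ g, S (delta g) = T (delta g)) : S = T := by
  classical
  refine lp.ext_continuousLinearMap (by norm_num) fun i => ?_
  ext
  exact h i

omit [Group G] in
theorem ell2_op_ext {S T : ell2 G →L[ℂ] ell2 G}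
    (h : ∀ g k, (S (delta g) : G → ℂ) k = (T (delta g) : G → ℂ) k) : S = T :=
  ell2_ext_delta fun g => by
    ext k
    exact h g k

theorem leftT_one : (leftT (1 : G)) = 1 := by
  ext ξ k
  rw [leftT_apply]
  simp

theorem leftT_mul (g h : G) : leftT (g * h) = leftT g * leftT h := by
  ext ξ k
  rw [op_mul_apply, leftT_apply, leftT_apply, leftT_apply]
  simp [mul_assoc]

theorem leftT_star (g : G) : star (leftT g) = leftT g⁻¹ := by
  rw [ContinuousLinearMap.star_eq_adjoint]
  symm
  rw [ContinuousLinearMap.eq_adjoint_iff]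
  intro ξ η
  have h := (reindex (Equiv.mulLeft g)).inner_map_map (leftT g⁻¹ ξ) η
  have h2 : reindex (Equiv.mulLeft g) (leftT g⁻¹ ξ) = ξ := by
    change (leftT g * leftT g⁻¹) ξ = ξ
    rw [← leftT_mul, mul_inv_cancel, leftT_one]
    rfl
  rw [h2] at h
  exact h.symm

theorem leftT_rightT (g h : G) : leftT g * rightT h = rightT h * leftT g := by
  ext ξ k
  rw [op_mul_apply, op_mul_apply, leftT_apply, rightT_apply,
    rightT_apply, leftT_apply, mul_assoc]

variable (G) in
/-- The group von Neumann algebra `L(G)`: the von Neumann algebra on `ℓ²(G)` generated by the left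
translations, that is, their double commutant. -/
noncomputable def groupVN : VonNeumannAlgebra (ell2 G) where
  toStarSubalgebra := StarSubalgebra.centralizer ℂ
    ((StarSubalgebra.centralizer ℂ (Set.range (leftT (G := G))) :
      StarSubalgebra ℂ (ell2 G →L[ℂ] ell2 G)) : Set (ell2 G →L[ℂ] ell2 G))
  centralizer_centralizer' := by
    have h := StarSubalgebra.coe_centralizer_centralizer (R := ℂ) (Set.range (leftT (G := G)))
    exact (congrArg (fun s => Set.centralizer (Set.centralizer s)) h).trans
      ((Set.centralizer_centralizer_centralizer _).trans h.symm)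

theorem star_range_leftT : star (Set.range (leftT (G := G))) = Set.range (leftT (G := G)) := by
  ext x
  rw [Set.mem_star]
  constructor
  · rintro ⟨g, hg⟩
    exact ⟨g⁻¹, by rw [← leftT_star, hg, star_star]⟩
  · rintro ⟨g, hg⟩
    exact ⟨g⁻¹, by rw [← leftT_star, hg]⟩

theorem coe_groupVN : (groupVN G : Set (ell2 G →L[ℂ] ell2 G)) =
    Set.centralizer (Set.centralizer (Set.range (leftT (G := G)))) := by
  have h := StarSubalgebra.coe_centralizer_centralizer (R := ℂ) (Set.range (leftT (G := G)))
  rw [star_range_leftT, Set.union_self] at h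
  exact h

theorem leftT_mem (g : G) : leftT g ∈ groupVN G := by
  rw [← SetLike.mem_coe, coe_groupVN]
  exact Set.subset_centralizer_centralizer ⟨g, rfl⟩

/-- Elements of `L(G)` commute with the right translations. -/
theorem comm_rightT {x : ell2 G →L[ℂ] ell2 G} (hx : x ∈ groupVN G) (g : G) :
    x * rightT g = rightT g * x := by
  rw [← SetLike.mem_coe, coe_groupVN] at hx
  symm
  refine Set.mem_centralizer_iff.mp hx (rightT g) ?_
  rw [Set.mem_centralizer_iff]
  rintro _ ⟨h, rfl⟩
  exact leftT_rightT h g

theorem apply_delta {x : ell2 G →L[ℂ] ell2 G} (hx : x ∈ groupVN G) (g k : G) :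
    (x (delta g) : G → ℂ) k = (x (delta 1) : G → ℂ) (k * g⁻¹) := by
  have h : delta g = rightT g⁻¹ (delta 1) := by rw [rightT_delta]; simp
  rw [h, ← op_mul_apply, comm_rightT hx, op_mul_apply,
    rightT_apply]

theorem star_apply_delta {x : ell2 G →L[ℂ] ell2 G} (hx : x ∈ groupVN G) (k : G) :
    (star x (delta 1) : G → ℂ) k = (starRingEnd ℂ) ((x (delta 1) : G → ℂ) k⁻¹) := by
  rw [ContinuousLinearMap.star_eq_adjoint, ← inner_delta_left,
    ContinuousLinearMap.adjoint_inner_right, inner_delta_right, apply_delta hx, one_mul]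

theorem groupVN_inner {x y : ell2 G →L[ℂ] ell2 G} (hx : x ∈ groupVN G) :
    ⟪delta 1, x (y (delta 1))⟫_ℂ = ∑' k : G, (y (delta 1) : G → ℂ) k * (x (delta 1) : G → ℂ) k⁻¹ := by
  rw [← ContinuousLinearMap.adjoint_inner_left, ← ContinuousLinearMap.star_eq_adjoint,
    lp.inner_eq_tsum]
  refine tsum_congr fun k => ?_
  rw [star_apply_delta hx]
  simp

theorem groupVN_tracial {x y : ell2 G →L[ℂ] ell2 G} (hx : x ∈ groupVN G) (hy : y ∈ groupVN G) :
    ⟪delta 1, x (y (delta 1))⟫_ℂ = ⟪delta 1, y (x (delta 1))⟫_ℂ := by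
  rw [groupVN_inner hx, groupVN_inner hy, ← (Equiv.inv G).tsum_eq]
  refine tsum_congr fun k => ?_
  simp [mul_comm]

theorem groupVN_faithful {x : ell2 G →L[ℂ] ell2 G} (hx : x ∈ groupVN G) (h : x (delta 1) = 0) :
    x = 0 := by
  refine ell2_op_ext fun g k => ?_
  rw [apply_delta hx, h]
  simp

variable (G) in
/-- The group von Neumann algebra `L(G)` with its canonical trace `τ(x) = ⟪δ₁, x δ₁⟫`. -/
noncomputable def ofGroup : TracialVN where
  H := ell2 G
  alg := groupVN G
  Ω := delta 1
  norm_Ω := by
    classical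
    unfold delta
    rw [lp.norm_single (by norm_num)]
    simp
  tracial x hx y hy := groupVN_tracial hx hy
  faithful x hx h := groupVN_faithful hx h

end Group

/-- The group of finitary permutations of `I` (those moving only finitely many points). -/
def FinPerm (I : Type) : Subgroup (Equiv.Perm I) where
  carrier := {g | {i | g i ≠ i}.Finite}
  mul_mem' {g h} hg hh := by
    refine (hg.union hh).subset fun i hi => ?_
    by_contra hcon
    simp only [Set.mem_union, Set.mem_ofPred_eq, not_or, not_not] at hcon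
    exact hi (by rw [Equiv.Perm.mul_apply, hcon.2, hcon.1])
  one_mem' := by simp
  inv_mem' {g} hg := by
    refine hg.subset fun i hi => ?_
    intro h
    apply hi
    rw [Equiv.Perm.inv_eq_iff_eq]
    exact h.symm

/-- The hyperfinite II₁ factor `R`, realised as the group von Neumann algebra of the group of
finitary permutations of `ℕ`. -/
noncomputable def hyperfiniteR : TracialVN := ofGroup (FinPerm ℕ)

end Pool.Agent.TVN
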