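import Pool.Agent.Lib.MP_baa3fb_lc.Lemmas

/-!
# `L(FinPerm ℕ)` is a hyperfinite II₁ factor
-/

set_option autoImplicit false

open scoped InnerProductSpace

namespace Pool.Agent.TVN

section Factor

variable {G : Type} [Group G]

/-- If every nontrivial conjugacy class of `G` is infinite then `L(G)` has trivial centre. -/
theorem groupVN_center (hG : ∀ h : G, h ≠ 1 → ∃ s : ℕ → G, Function.Injective
      fun n => (s n)⁻¹ * h * s n) {x : ell2 G →L[ℂ] ell2 G} (hx : x ∈ groupVN G)
    (hc : ∀ g : G, x * leftT g = leftT g * x) : x = (x (delta 1) : G → ℂ) 1 • 1 := by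
  set ξ := x (delta 1) with hξ
  have h1 : ∀ h g : G, (ξ : G → ℂ) (g⁻¹ * h * g) = (ξ : G → ℂ) h := by
    intro h g
    have h2 : x (delta g) = leftT g ξ := by
      have h3 : (x * leftT g) (delta 1) = (leftT g * x) (delta 1) := by rw [hc g]
      rw [op_mul_apply, op_mul_apply, leftT_delta, mul_one] at h3
      exact h3
    have h4 : (x (delta g) : G → ℂ) (h * g) = (leftT g ξ : G → ℂ) (h * g) := by rw [h2]
    rw [apply_delta hx, leftT_apply, mul_inv_cancel_right] at h4
    rw [mul_assoc]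
    exact h4.symm
  have h5 : ∀ h : G, h ≠ 1 → (ξ : G → ℂ) h = 0 := by
    intro h hh
    obtain ⟨s, hs⟩ := hG h hh
    have h6 : Summable fun n : ℕ => ‖(ξ : G → ℂ) ((s n)⁻¹ * h * s n)‖ ^ 2 :=
      (ell2_summable ξ).comp_injective hs
    simp_rw [h1] at h6
    rw [summable_const_iff] at h6
    exact norm_eq_zero.mp (pow_eq_zero_iff two_ne_zero |>.mp h6)
  have h7 : x - (ξ : G → ℂ) 1 • 1 = 0 := by
    refine groupVN_faithful (sub_mem hx ?_) ?_
    · exact smul_mem_alg (M := ofGroup G) _ (one_mem _)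
    · rw [sub_apply]
      ext k
      change (ξ : G → ℂ) k - (ξ : G → ℂ) 1 * ((delta 1 : ell2 G) : G → ℂ) k = 0
      rw [delta_apply]
      by_cases hk : k = 1
      · rw [if_pos hk, hk]; ring
      · rw [if_neg hk, h5 k hk]; ring
  exact sub_eq_zero.mp h7

omit [Group G] in
theorem delta_linearIndependent : LinearIndependent ℂ (fun g : G => (delta g : ell2 G)) := by
  classical
  refine Orthonormal.linearIndependent (𝕜 := ℂ) ?_
  rw [orthonormal_iff_ite]
  intro g h
  rw [inner_delta_left, delta_apply]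

theorem leftT_linearIndependent :
    LinearIndependent ℂ (fun g : G => (leftT g : ell2 G →L[ℂ] ell2 G)) := by
  let ev : (ell2 G →L[ℂ] ell2 G) →ₗ[ℂ] ell2 G :=
    { toFun := fun x => x (delta 1)
      map_add' := fun x y => rfl
      map_smul' := fun c x => rfl }
  refine LinearIndependent.of_comp ev ?_
  have : (ev ∘ fun g : G => (leftT g : ell2 G →L[ℂ] ell2 G)) = fun g : G => (delta g : ell2 G) := by
    funext g
    change leftT g (delta 1) = delta g
    rw [leftT_delta, mul_one]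
  rw [this]
  exact delta_linearIndependent

theorem groupVN_infinite [Infinite G] :
    IsInfiniteDim (groupVN G : Set (ell2 G →L[ℂ] ell2 G)) := by
  refine ⟨fun n => leftT (Infinite.natEmbedding G n), fun n => leftT_mem _, ?_⟩
  exact (leftT_linearIndependent (G := G)).comp _ (Infinite.natEmbedding G).injective

end Factor

section FinPermICC

theorem conj_injective (h : FinPerm ℕ) (hh : h ≠ 1) : ∃ s : ℕ → FinPerm ℕ,
    Function.Injective fun n => (s n)⁻¹ * h * s n := by
  classical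
  have h1 : ∃ i, (h : Equiv.Perm ℕ) i ≠ i := by
    by_contra hcon
    push Not at hcon
    apply hh
    apply Subtype.ext
    ext i
    rw [hcon i]
    rfl
  obtain ⟨i, hi⟩ := h1
  set j := (h : Equiv.Perm ℕ) i with hj
  let s : ℕ → FinPerm ℕ := fun n => ⟨Equiv.swap j (n + i + j + 1), by
    refine (Set.toFinite ({j, n + i + j + 1} : Set ℕ)).subset ?_
    intro k hk
    by_contra hcon
    simp only [Set.mem_insert_iff, Set.mem_singleton_iff, not_or] at hcon
    exact hk (Equiv.swap_apply_of_ne_of_ne hcon.1 hcon.2)⟩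
  have key : ∀ n, (((s n)⁻¹ * h * s n : FinPerm ℕ) : Equiv.Perm ℕ) i = n + i + j + 1 := by
    intro n
    change (Equiv.swap j (n + i + j + 1))⁻¹ ((h : Equiv.Perm ℕ)
      (Equiv.swap j (n + i + j + 1) i)) = _
    rw [Equiv.swap_inv, Equiv.swap_apply_of_ne_of_ne (Ne.symm hi) (by omega), ← hj,
      Equiv.swap_apply_left]
  refine ⟨s, fun n m hnm => ?_⟩
  have h2 := key n
  have h3 := key m
  simp only at hnm
  rw [hnm, h3] at h2
  omega

instance : Infinite (FinPerm ℕ) := by
  classical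
  have hne : (⟨Equiv.swap 0 1, by
    refine (Set.toFinite ({0, 1} : Set ℕ)).subset ?_
    intro k hk
    by_contra hcon
    simp only [Set.mem_insert_iff, Set.mem_singleton_iff, not_or] at hcon
    exact hk (Equiv.swap_apply_of_ne_of_ne hcon.1 hcon.2)⟩ : FinPerm ℕ) ≠ 1 := by
    intro h
    have h1 := congrArg (fun g : FinPerm ℕ => (g : Equiv.Perm ℕ) 0) h
    simp at h1
  obtain ⟨s, hs⟩ := conj_injective _ hne
  exact Infinite.of_injective _ hs

end FinPermICC

section Hyp

/-- The finite dimensional *-algebra spanned by the permutations of `{0, …, n-1}`. -/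
noncomputable def fdAlg (n : ℕ) : StarSubalgebra ℂ hyperfiniteR.Op where
  carrier := Set.range fun b : Equiv.Perm (Fin n) → ℂ =>
    (Lam (via (Fin.valEmbedding : Fin n ↪ ℕ)) b : hyperfiniteR.Op)
  mul_mem' := by
    rintro _ _ ⟨b, rfl⟩ ⟨c, rfl⟩
    exact ⟨conv b c, Lam_conv _ _ _⟩
  one_mem' := ⟨oneF, Lam_one _⟩
  add_mem' := by
    rintro _ _ ⟨b, rfl⟩ ⟨c, rfl⟩
    exact ⟨b + c, Lam_add _ _ _⟩
  zero_mem' := ⟨0, Lam_zero _⟩
  algebraMap_mem' c := by
    refine ⟨c • oneF, ?_⟩
    change Lam _ _ = _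
    rw [Lam_smul, Lam_one]
    rfl
  star_mem' := by
    rintro _ ⟨b, rfl⟩
    exact ⟨adjF b, Lam_adjF _ _⟩

theorem mem_fdAlg {n : ℕ} {x : hyperfiniteR.Op} :
    x ∈ fdAlg n ↔ ∃ b : Equiv.Perm (Fin n) → ℂ,
      (Lam (via (Fin.valEmbedding : Fin n ↪ ℕ)) b : hyperfiniteR.Op) = x := Iff.rfl

theorem fdAlg_mono : Monotone fdAlg := by
  intro n m hnm x hx
  rw [mem_fdAlg] at hx ⊢
  obtain ⟨b, rfl⟩ := hx
  refine ⟨push (Fin.castLEEmb hnm) b, ?_⟩
  rw [Lam_push]
  rfl

theorem fdAlg_finiteDimensional (n : ℕ) : FiniteDimensional ℂ (fdAlg n) := by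
  let L : (Equiv.Perm (Fin n) → ℂ) →ₗ[ℂ] fdAlg n :=
    { toFun := fun b => ⟨Lam (via (Fin.valEmbedding : Fin n ↪ ℕ)) b, b, rfl⟩
      map_add' := fun b c => Subtype.ext (Lam_add _ _ _)
      map_smul' := fun a c => Subtype.ext (Lam_smul _ _ _) }
  refine Module.Finite.of_surjective L ?_
  rintro ⟨_, b, rfl⟩
  exact ⟨b, rfl⟩

theorem exists_via_eq {I β : Type} [Finite β] (f : β ↪ I) (g : FinPerm I)
    (hmem : ∀ i, (g : Equiv.Perm I) i ≠ i → i ∈ Set.range f) : ∃ τ, via f τ = g := by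
  have hp : ∀ i, (g : Equiv.Perm I) i ∈ Set.range f ↔ i ∈ Set.range f := by
    intro i
    by_cases hi : (g : Equiv.Perm I) i = i
    · rw [hi]
    · have h1 : (g : Equiv.Perm I) i ∈ Set.range f :=
        hmem _ fun h => hi ((g : Equiv.Perm I).injective h)
      exact ⟨fun _ => hmem i hi, fun _ => h1⟩
  let τ' : Equiv.Perm (Set.range f) := (g : Equiv.Perm I).subtypePerm hp
  let e : β ≃ Set.range f := Equiv.ofInjective f f.injective
  let τ : Equiv.Perm β := (e.trans τ').trans e.symm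
  refine ⟨τ, ?_⟩
  apply Subtype.ext
  change Equiv.Perm.viaEmbedding τ f = g
  ext i
  by_cases hi : i ∈ Set.range f
  · obtain ⟨b, rfl⟩ := hi
    rw [Equiv.Perm.viaEmbedding_apply]
    have : e (τ b) = τ' (e b) := by
      change e (e.symm (τ' (e b))) = _
      rw [Equiv.apply_symm_apply]
    exact congrArg Subtype.val this
  · rw [Equiv.Perm.viaEmbedding_apply_of_notMem _ _ _ hi]
    by_contra hcon
    exact hi (hmem i fun h => hcon h.symm)

theorem leftT_mem_fdAlg (g : FinPerm ℕ) : ∃ n, (leftT g : hyperfiniteR.Op) ∈ fdAlg n := by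
  classical
  have hfin : {i | (g : Equiv.Perm ℕ) i ≠ i}.Finite := g.2
  obtain ⟨n, hn⟩ := hfin.bddAbove
  have h1 : ∀ i, (g : Equiv.Perm ℕ) i ≠ i → i ∈ Set.range (Fin.valEmbedding : Fin (n + 1) ↪ ℕ) := by
    intro i hi
    exact ⟨⟨i, Nat.lt_succ_of_le (hn hi)⟩, rfl⟩
  obtain ⟨τ, hτ⟩ := exists_via_eq _ g h1
  refine ⟨n + 1, mem_fdAlg.mpr ⟨fun σ => if σ = τ then 1 else 0, ?_⟩⟩
  change Lam _ _ = leftT g
  unfold Lam
  rw [Finset.sum_eq_single τ]
  · beta_reduce
    rw [if_pos rfl, one_smul, hτ]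
  · intro σ _ hσ
    beta_reduce
    rw [if_neg hσ, zero_smul]
  · intro h
    exact absurd (Finset.mem_univ _) h

/-- The algebra `L(FinPerm ℕ)` is a hyperfinite II₁ factor. -/
theorem isHyperfiniteII1 : IsHyperfiniteII1 hyperfiniteR where
  factor x hx hc := by
    exact ⟨_, groupVN_center conj_injective hx fun g => hc _ (leftT_mem g)⟩
  infinite := groupVN_infinite
  hyperfinite := by
    refine ⟨fdAlg, fdAlg_mono, fdAlg_finiteDimensional, ?_⟩
    have hS : (Set.range (leftT (G := FinPerm ℕ)) : Set hyperfiniteR.Op) ⊆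
        ⋃ n, (fdAlg n : Set hyperfiniteR.Op) := by
      rintro _ ⟨g, rfl⟩
      obtain ⟨n, hn⟩ := leftT_mem_fdAlg g
      exact Set.mem_iUnion.mpr ⟨n, hn⟩
    have hT : (⋃ n, (fdAlg n : Set hyperfiniteR.Op)) ⊆
        Set.centralizer (Set.centralizer
          (Set.range (leftT (G := FinPerm ℕ)) : Set hyperfiniteR.Op)) := by
      rintro x hx
      obtain ⟨n, hn⟩ := Set.mem_iUnion.mp hx
      obtain ⟨b, rfl⟩ := mem_fdAlg.mp hn
      have := Lam_mem (via (Fin.valEmbedding : Fin n ↪ ℕ)) b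
      rw [← SetLike.mem_coe, coe_groupVN] at this
      exact this
    change _ = (groupVN (FinPerm ℕ) : Set (ell2 (FinPerm ℕ) →L[ℂ] ell2 (FinPerm ℕ)))
    rw [coe_groupVN]
    refine Set.Subset.antisymm ?_ ?_
    · have h1 := Set.centralizer_subset (Set.centralizer_subset hT)
      refine h1.trans ?_
      exact (Set.centralizer_centralizer_centralizer _).subset
    · exact Set.centralizer_subset (Set.centralizer_subset hS)

end Hyp

end Pool.Agent.TVN
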