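import Pool.Agent.Lib.MP_baa3fb_lc.Defs

/-!
# Basic lemmas on the continuous logic of tracial von Neumann algebras, and
# finite dimensional approximation in group von Neumann algebras
-/

set_option autoImplicit false

open scoped InnerProductSpace

namespace Pool.Agent.TVN

/-! ### Shortcut instances (they only speed up instance search) -/

section Shortcuts

variable (G : Type)

noncomputable instance (priority := 3000) scAddCommGroup : AddCommGroup (ell2 G) := inferInstance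
noncomputable instance (priority := 3000) scSeminormed : SeminormedAddCommGroup (ell2 G) :=
  inferInstance
noncomputable instance (priority := 3000) scUniform : UniformSpace (ell2 G) := inferInstance
noncomputable instance (priority := 3000) scTop : TopologicalSpace (ell2 G) := inferInstance
noncomputable instance (priority := 3000) scACM : AddCommMonoid (ell2 G) := inferInstance
noncomputable instance (priority := 3000) scModule : Module ℂ (ell2 G) := inferInstance
noncomputable instance (priority := 3000) scRing : Ring (ell2 G →L[ℂ] ell2 G) := inferInstance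
noncomputable instance (priority := 3000) scSemiring : Semiring (ell2 G →L[ℂ] ell2 G) :=
  inferInstance
noncomputable instance (priority := 3000) scNUNAS :
    NonUnitalNonAssocSemiring (ell2 G →L[ℂ] ell2 G) := inferInstance
noncomputable instance (priority := 3000) scOpACM : AddCommMonoid (ell2 G →L[ℂ] ell2 G) :=
  inferInstance
noncomputable instance (priority := 3000) scOpACG : AddCommGroup (ell2 G →L[ℂ] ell2 G) :=
  inferInstance
noncomputable instance (priority := 3000) scOpSem :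
    SeminormedAddCommGroup (ell2 G →L[ℂ] ell2 G) := inferInstance
noncomputable instance (priority := 3000) scOpAlg : Algebra ℂ (ell2 G →L[ℂ] ell2 G) :=
  inferInstance
noncomputable instance (priority := 3000) scOpModule : Module ℂ (ell2 G →L[ℂ] ell2 G) :=
  inferInstance

end Shortcuts


section Norms

variable {M : TracialVN}

theorem norm2_zero : M.norm2 0 = 0 := by
  unfold TracialVN.norm2
  simp

theorem norm2_nonneg (x : M.Op) : 0 ≤ M.norm2 x := norm_nonneg _

theorem norm2_add (x y : M.Op) : M.norm2 (x + y) ≤ M.norm2 x + M.norm2 y := by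
  unfold TracialVN.norm2
  exact norm_add_le _ _

theorem norm2_smul (c : ℂ) (x : M.Op) : M.norm2 (c • x) = ‖c‖ * M.norm2 x := by
  unfold TracialVN.norm2
  exact norm_smul _ _

theorem norm2_le_norm (x : M.Op) : M.norm2 x ≤ ‖x‖ := by
  unfold TracialVN.norm2
  have := x.le_opNorm M.Ω
  rwa [M.norm_Ω, mul_one] at this

theorem norm2_star {x : M.Op} (hx : x ∈ M.alg) : M.norm2 (star x) = M.norm2 x := by
  have h1 : ⟪star x M.Ω, star x M.Ω⟫_ℂ = ⟪M.Ω, x (star x M.Ω)⟫_ℂ := by
    rw [ContinuousLinearMap.star_eq_adjoint, ContinuousLinearMap.adjoint_inner_left]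
  have h2 : ⟪x M.Ω, x M.Ω⟫_ℂ = ⟪M.Ω, star x (x M.Ω)⟫_ℂ := by
    rw [ContinuousLinearMap.star_eq_adjoint, ContinuousLinearMap.adjoint_inner_right]
  have h3 := M.tracial x hx (star x) (star_mem hx)
  rw [← h1, ← h2, inner_self_eq_norm_sq_to_K, inner_self_eq_norm_sq_to_K] at h3
  have h4 : ‖star x M.Ω‖ ^ 2 = ‖x M.Ω‖ ^ 2 := by
    exact_mod_cast h3
  exact (pow_left_inj₀ (norm_nonneg _) (norm_nonneg _) two_ne_zero).mp h4

theorem norm2_mul_left (x y : M.Op) : M.norm2 (x * y) ≤ ‖x‖ * M.norm2 y :=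
  x.le_opNorm (y M.Ω)

theorem norm2_mul_right {x y : M.Op} (hx : x ∈ M.alg) (hy : y ∈ M.alg) :
    M.norm2 (x * y) ≤ M.norm2 x * ‖y‖ := by
  rw [← norm2_star (mul_mem hx hy), star_mul, mul_comm]
  refine (norm2_mul_left _ _).trans ?_
  rw [norm_star, norm2_star hx]

end Norms

section Terms

variable {V : Type}

theorem smul_mem_alg {M : TracialVN} (c : ℂ) {x : M.Op} (hx : x ∈ M.alg) : c • x ∈ M.alg :=
  M.alg.toStarSubalgebra.toSubalgebra.smul_mem hx c

theorem Tm.eval_mem (M : TracialVN) (v : V → M.Op) (hv : ∀ i, v i ∈ M.alg) (t : Tm V) :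
    t.eval M v ∈ M.alg := by
  induction t with
  | var x => exact hv x
  | zero => exact zero_mem _
  | one => exact one_mem _
  | add t s iht ihs => exact add_mem iht ihs
  | mul t s iht ihs => exact mul_mem iht ihs
  | adj t iht => exact star_mem iht
  | smul c t iht => exact smul_mem_alg c iht

/-- Norm bound of a term. -/
noncomputable def Tm.bd (s : V → ℝ) : Tm V → ℝ
  | .var x => s x
  | .zero => 0
  | .one => 1
  | .add t u => t.bd s + u.bd s
  | .mul t u => t.bd s * u.bd s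
  | .adj t => t.bd s
  | .smul c t => ‖c‖ * t.bd s

theorem Tm.norm_eval_le (M : TracialVN) (v : V → M.Op) (s : V → ℝ) (hv : ∀ i, ‖v i‖ ≤ s i)
    (t : Tm V) : ‖t.eval M v‖ ≤ t.bd s := by
  induction t with
  | var x => exact hv x
  | zero => exact (norm_zero).le
  | one => exact ContinuousLinearMap.norm_id_le
  | add t u iht ihu => exact (norm_add_le _ _).trans (add_le_add iht ihu)
  | mul t u iht ihu =>
    exact (norm_mul_le _ _).trans
      (mul_le_mul iht ihu (norm_nonneg _) ((norm_nonneg _).trans iht))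
  | adj t iht => exact (norm_star _).le.trans iht
  | smul c t iht =>
    exact (norm_smul_le _ _).trans (mul_le_mul_of_nonneg_left iht (norm_nonneg _))

/-- Lipschitz constant of a term with respect to the 2-norm. -/
noncomputable def Tm.lip (s : V → ℝ) : Tm V → ℝ
  | .var _ => 1
  | .zero => 0
  | .one => 0
  | .add t u => t.lip s + u.lip s
  | .mul t u => t.bd s * u.lip s + t.lip s * u.bd s
  | .adj t => t.lip s
  | .smul c t => ‖c‖ * t.lip s

theorem Tm.norm2_sub_le (M : TracialVN) (v v' : V → M.Op) (s : V → ℝ)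
    (hv : ∀ i, v i ∈ M.alg) (hv' : ∀ i, v' i ∈ M.alg)
    (hs : ∀ i, ‖v i‖ ≤ s i) (hs' : ∀ i, ‖v' i‖ ≤ s i) (δ : ℝ)
    (hδ : ∀ i, M.norm2 (v i - v' i) ≤ δ) (hδ0 : 0 ≤ δ) (t : Tm V) :
    M.norm2 (t.eval M v - t.eval M v') ≤ t.lip s * δ ∧ 0 ≤ t.lip s := by
  induction t with
  | var x => exact ⟨by simpa [Tm.lip, Tm.eval] using hδ x, zero_le_one⟩
  | zero => exact ⟨by simp [Tm.eval, Tm.lip, norm2_zero], le_rfl⟩
  | one => exact ⟨by simp [Tm.eval, Tm.lip, norm2_zero], le_rfl⟩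
  | add t u iht ihu =>
    refine ⟨?_, add_nonneg iht.2 ihu.2⟩
    have e : Tm.eval M v (t.add u) - Tm.eval M v' (t.add u)
        = (t.eval M v - t.eval M v') + (u.eval M v - u.eval M v') := by
      simp only [Tm.eval]; abel
    rw [e]
    refine (norm2_add _ _).trans ?_
    simp only [Tm.lip, add_mul]
    exact add_le_add iht.1 ihu.1
  | mul t u iht ihu =>
    have ht := Tm.norm_eval_le M v s hs t
    have hu := Tm.norm_eval_le M v' s hs' u
    have ht0 := (norm_nonneg _).trans ht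
    have hu0 := (norm_nonneg _).trans hu
    refine ⟨?_, add_nonneg (mul_nonneg ht0 ihu.2) (mul_nonneg iht.2 hu0)⟩
    have e : Tm.eval M v (t.mul u) - Tm.eval M v' (t.mul u)
        = t.eval M v * (u.eval M v - u.eval M v') + (t.eval M v - t.eval M v') * u.eval M v' := by
      simp only [Tm.eval]; rw [mul_sub, sub_mul]; abel
    rw [e]
    refine (norm2_add _ _).trans ?_
    simp only [Tm.lip, add_mul]
    refine add_le_add ?_ ?_
    · refine (norm2_mul_left _ _).trans ?_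
      rw [mul_assoc]
      exact mul_le_mul ht ihu.1 (norm2_nonneg _) ht0
    · refine (norm2_mul_right (sub_mem (Tm.eval_mem M v hv t) (Tm.eval_mem M v' hv' t))
        (Tm.eval_mem M v' hv' u)).trans ?_
      rw [mul_assoc, mul_comm (Tm.bd s u), ← mul_assoc]
      exact mul_le_mul iht.1 hu (norm_nonneg _) (mul_nonneg iht.2 hδ0)
  | adj t iht =>
    refine ⟨?_, iht.2⟩
    have e : Tm.eval M v t.adj - Tm.eval M v' t.adj = star (t.eval M v - t.eval M v') := by
      simp only [Tm.eval]; rw [star_sub]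
    rw [e, norm2_star (sub_mem (Tm.eval_mem M v hv t) (Tm.eval_mem M v' hv' t))]
    exact iht.1
  | smul c t iht =>
    refine ⟨?_, mul_nonneg (norm_nonneg _) iht.2⟩
    have e : Tm.eval M v (t.smul c) - Tm.eval M v' (t.smul c) = c • (t.eval M v - t.eval M v') := by
      simp only [Tm.eval]; rw [smul_sub]
    rw [e, norm2_smul, Tm.lip, mul_assoc]
    exact mul_le_mul_of_nonneg_left iht.1 (norm_nonneg _)

end Terms

section Bounds

theorem abs_iSup_sub_iSup_le {ι : Type} [Nonempty ι] {f g : ι → ℝ} {C ε : ℝ}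
    (hf : ∀ i, |f i| ≤ C) (hg : ∀ i, |g i| ≤ C) (h : ∀ i, |f i - g i| ≤ ε) :
    |(⨆ i, f i) - ⨆ i, g i| ≤ ε := by
  have hbf : BddAbove (Set.range f) := ⟨C, by rintro _ ⟨i, rfl⟩; exact (abs_le.mp (hf i)).2⟩
  have hbg : BddAbove (Set.range g) := ⟨C, by rintro _ ⟨i, rfl⟩; exact (abs_le.mp (hg i)).2⟩
  rw [abs_le]
  constructor
  · have : (⨆ i, g i) ≤ (⨆ i, f i) + ε := ciSup_le fun i => by
      have h1 := (abs_le.mp (h i)).1
      have h2 := le_ciSup hbf i
      linarith
    linarith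
  · have : (⨆ i, f i) ≤ (⨆ i, g i) + ε := ciSup_le fun i => by
      have h1 := (abs_le.mp (h i)).2
      have h2 := le_ciSup hbg i
      linarith
    linarith

theorem abs_iInf_sub_iInf_le {ι : Type} [Nonempty ι] {f g : ι → ℝ} {C ε : ℝ}
    (hf : ∀ i, |f i| ≤ C) (hg : ∀ i, |g i| ≤ C) (h : ∀ i, |f i - g i| ≤ ε) :
    |(⨅ i, f i) - ⨅ i, g i| ≤ ε := by
  have hbf : BddBelow (Set.range f) := ⟨-C, by rintro _ ⟨i, rfl⟩; exact (abs_le.mp (hf i)).1⟩
  have hbg : BddBelow (Set.range g) := ⟨-C, by rintro _ ⟨i, rfl⟩; exact (abs_le.mp (hg i)).1⟩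
  rw [abs_le]
  constructor
  · have : (⨅ i, g i) - ε ≤ (⨅ i, f i) := le_ciInf fun i => by
      have h1 := (abs_le.mp (h i)).1
      have h2 := ciInf_le hbg i
      linarith
    linarith
  · have : (⨅ i, f i) - ε ≤ (⨅ i, g i) := le_ciInf fun i => by
      have h1 := (abs_le.mp (h i)).2
      have h2 := ciInf_le hbf i
      linarith
    linarith

theorem abs_iSup_le {ι : Type} [Nonempty ι] {f : ι → ℝ} {C : ℝ}
    (hf : ∀ i, |f i| ≤ C) : |(⨆ i, f i)| ≤ C := by
  have hbf : BddAbove (Set.range f) := ⟨C, by rintro _ ⟨i, rfl⟩; exact (abs_le.mp (hf i)).2⟩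
  rw [abs_le]
  constructor
  · obtain ⟨i⟩ := ‹Nonempty ι›
    exact (abs_le.mp (hf i)).1.trans (le_ciSup hbf i)
  · exact ciSup_le fun i => (abs_le.mp (hf i)).2

theorem abs_iInf_le {ι : Type} [Nonempty ι] {f : ι → ℝ} {C : ℝ}
    (hf : ∀ i, |f i| ≤ C) : |(⨅ i, f i)| ≤ C := by
  have hbf : BddBelow (Set.range f) := ⟨-C, by rintro _ ⟨i, rfl⟩; exact (abs_le.mp (hf i)).1⟩
  rw [abs_le]
  constructor
  · exact le_ciInf fun i => (abs_le.mp (hf i)).1
  · obtain ⟨i⟩ := ‹Nonempty ι›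
    exact (ciInf_le hbf i).trans (abs_le.mp (hf i)).2

instance (M : TracialVN) (n : ℕ) : Nonempty (M.Ball n) :=
  ⟨⟨0, zero_mem _, by simp⟩⟩

theorem snoc_mem {M : TracialVN} {k : ℕ} {w : Fin k → M.Op} (hw : ∀ i, w i ∈ M.alg)
    {x : M.Op} (hx : x ∈ M.alg) : ∀ i, (Fin.snoc w x : Fin (k + 1) → M.Op) i ∈ M.alg := by
  intro i
  refine Fin.lastCases ?_ (fun j => ?_) i
  · rw [Fin.snoc_last]; exact hx
  · rw [Fin.snoc_castSucc]; exact hw j

theorem snoc_norm {M : TracialVN} {k : ℕ} {w : Fin k → M.Op} {s : Fin k → ℝ}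
    (hw : ∀ i, ‖w i‖ ≤ s i) {x : M.Op} {r : ℝ} (hx : ‖x‖ ≤ r) :
    ∀ i, ‖(Fin.snoc w x : Fin (k + 1) → M.Op) i‖ ≤ (Fin.snoc s r : Fin (k + 1) → ℝ) i := by
  intro i
  refine Fin.lastCases ?_ (fun j => ?_) i
  · rw [Fin.snoc_last, Fin.snoc_last]; exact hx
  · rw [Fin.snoc_castSucc, Fin.snoc_castSucc]; exact hw j

theorem snoc_norm2 {M : TracialVN} {k : ℕ} {w w' : Fin k → M.Op} {δ : ℝ}
    (hw : ∀ i, M.norm2 (w i - w' i) ≤ δ) {x x' : M.Op} (hx : M.norm2 (x - x') ≤ δ) :
    ∀ i, M.norm2 ((Fin.snoc w x : Fin (k + 1) → M.Op) i - (Fin.snoc w' x' : Fin (k + 1) → M.Op) i)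
      ≤ δ := by
  intro i
  refine Fin.lastCases ?_ (fun j => ?_) i
  · rw [Fin.snoc_last, Fin.snoc_last]; exact hx
  · rw [Fin.snoc_castSucc, Fin.snoc_castSucc]; exact hw j

theorem elim_mem {M : TracialVN} {V W : Type} {v : V → M.Op} {w : W → M.Op}
    (hv : ∀ i, v i ∈ M.alg) (hw : ∀ i, w i ∈ M.alg) :
    ∀ i, (Sum.elim v w) i ∈ M.alg := by
  rintro (i | i)
  · exact hv i
  · exact hw i

theorem elim_norm {M : TracialVN} {V W : Type} {v : V → M.Op} {w : W → M.Op}
    {s : V → ℝ} {s' : W → ℝ} (hv : ∀ i, ‖v i‖ ≤ s i) (hw : ∀ i, ‖w i‖ ≤ s' i) :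
    ∀ i, ‖(Sum.elim v w) i‖ ≤ (Sum.elim s s') i := by
  rintro (i | i)
  · exact hv i
  · exact hw i

theorem elim_norm2 {M : TracialVN} {V W : Type} {v : V → M.Op} {w w' : W → M.Op}
    {δ : ℝ} (hδ : 0 ≤ δ) (hw : ∀ i, M.norm2 (w i - w' i) ≤ δ) :
    ∀ i, M.norm2 ((Sum.elim v w) i - (Sum.elim v w') i) ≤ δ := by
  rintro (i | i)
  · simpa [norm2_zero] using hδ
  · exact hw i

/-- Formulas are bounded on bounded assignments. -/
theorem Fml.exists_bound (M : TracialVN) {V : Type} {k : ℕ} (φ : Fml V k) :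
    ∀ (s : V → ℝ) (s' : Fin k → ℝ), ∃ C : ℝ, ∀ (v : V → M.Op) (w : Fin k → M.Op),
      (∀ i, v i ∈ M.alg) → (∀ i, w i ∈ M.alg) → (∀ i, ‖v i‖ ≤ s i) → (∀ i, ‖w i‖ ≤ s' i) →
      |φ.eval M v w| ≤ C := by
  have key : ∀ (x : M.Op), ‖M.tr x‖ ≤ ‖x‖ := by
    intro x
    unfold TracialVN.tr
    refine (norm_inner_le_norm _ _).trans ?_
    rw [M.norm_Ω, one_mul]
    exact norm2_le_norm x
  induction φ with
  | reTr t =>
    intro s s'
    refine ⟨t.bd (Sum.elim s s'), fun v w hv hw hs hs' => ?_⟩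
    exact (Complex.abs_re_le_norm _).trans ((key _).trans
      (Tm.norm_eval_le M _ _ (elim_norm hs hs') t))
  | imTr t =>
    intro s s'
    refine ⟨t.bd (Sum.elim s s'), fun v w hv hw hs hs' => ?_⟩
    exact (Complex.abs_im_le_norm _).trans ((key _).trans
      (Tm.norm_eval_le M _ _ (elim_norm hs hs') t))
  | dist t u =>
    intro s s'
    refine ⟨t.bd (Sum.elim s s') + u.bd (Sum.elim s s'), fun v w hv hw hs hs' => ?_⟩
    simp only [Fml.eval]
    rw [abs_of_nonneg (norm2_nonneg _)]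
    refine (norm2_le_norm _).trans ((norm_sub_le _ _).trans ?_)
    exact add_le_add (Tm.norm_eval_le M _ _ (elim_norm hs hs') t)
      (Tm.norm_eval_le M _ _ (elim_norm hs hs') u)
  | conn u φ ih =>
    intro s s'
    choose C hC using fun i => ih i s s'
    have hcomp : IsCompact (Set.univ.pi fun i => Set.Icc (-(C i)) (C i)) :=
      isCompact_univ_pi fun i => isCompact_Icc
    obtain ⟨D, hD⟩ := (hcomp.image u.continuous).isBounded.exists_norm_le
    refine ⟨D, fun v w hv hw hs hs' => ?_⟩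
    refine hD _ ⟨_, ?_, rfl⟩
    intro i _
    exact abs_le.mp (hC i v w hv hw hs hs')
  | sup n φ ih =>
    intro s s'
    obtain ⟨C, hC⟩ := ih s (Fin.snoc s' n)
    refine ⟨C, fun v w hv hw hs hs' => abs_iSup_le fun x => ?_⟩
    exact hC v _ hv (snoc_mem hw x.2.1) hs (snoc_norm hs' x.2.2)
  | inf n φ ih =>
    intro s s'
    obtain ⟨C, hC⟩ := ih s (Fin.snoc s' n)
    refine ⟨C, fun v w hv hw hs hs' => abs_iInf_le fun x => ?_⟩
    exact hC v _ hv (snoc_mem hw x.2.1) hs (snoc_norm hs' x.2.2)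

/-- Formulas are uniformly continuous in the bound variables on bounded assignments. -/
theorem Fml.exists_modulus (M : TracialVN) {V : Type} {k : ℕ} (φ : Fml V k) :
    ∀ (s : V → ℝ) (s' : Fin k → ℝ) (ε : ℝ), 0 < ε → ∃ δ : ℝ, 0 < δ ∧
      ∀ (v : V → M.Op) (w w' : Fin k → M.Op),
      (∀ i, v i ∈ M.alg) → (∀ i, w i ∈ M.alg) → (∀ i, w' i ∈ M.alg) →
      (∀ i, ‖v i‖ ≤ s i) → (∀ i, ‖w i‖ ≤ s' i) → (∀ i, ‖w' i‖ ≤ s' i) →
      (∀ i, M.norm2 (w i - w' i) ≤ δ) → |φ.eval M v w - φ.eval M v w'| ≤ ε := by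
  have keytr : ∀ (x : M.Op), ‖M.tr x‖ ≤ M.norm2 x := by
    intro x
    unfold TracialVN.tr
    refine (norm_inner_le_norm _ _).trans ?_
    rw [M.norm_Ω, one_mul]
    rfl
  have trsub : ∀ (x y : M.Op), M.tr x - M.tr y = M.tr (x - y) := by
    intro x y
    unfold TracialVN.tr
    rw [← inner_sub_right]
    rfl
  have keyT : ∀ {k : ℕ} (t : Tm (V ⊕ Fin k)) (s : V → ℝ) (s' : Fin k → ℝ) (ε : ℝ), 0 < ε →
      ∃ δ : ℝ, 0 < δ ∧ ∀ (v : V → M.Op) (w w' : Fin k → M.Op),
      (∀ i, v i ∈ M.alg) → (∀ i, w i ∈ M.alg) → (∀ i, w' i ∈ M.alg) →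
      (∀ i, ‖v i‖ ≤ s i) → (∀ i, ‖w i‖ ≤ s' i) → (∀ i, ‖w' i‖ ≤ s' i) →
      (∀ i, M.norm2 (w i - w' i) ≤ δ) →
      M.norm2 (t.eval M (Sum.elim v w) - t.eval M (Sum.elim v w')) ≤ ε := by
    intro k t s s' ε hε
    refine ⟨ε / (|t.lip (Sum.elim s s')| + 1), by positivity, ?_⟩
    intro v w w' hv hw hw' hs hs' hs'' hd
    have h0 : 0 ≤ ε / (|t.lip (Sum.elim s s')| + 1) := by positivity
    obtain ⟨h1, h2⟩ := Tm.norm2_sub_le M (Sum.elim v w) (Sum.elim v w') (Sum.elim s s')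
      (elim_mem hv hw) (elim_mem hv hw') (elim_norm hs hs') (elim_norm hs hs'') _
      (elim_norm2 h0 hd) h0 t
    refine h1.trans ?_
    rw [← mul_div_assoc, div_le_iff₀ (by positivity), abs_of_nonneg h2]
    nlinarith
  induction φ with
  | reTr t =>
    intro s s' ε hε
    obtain ⟨δ, hδ, h⟩ := keyT t s s' ε hε
    refine ⟨δ, hδ, fun v w w' hv hw hw' hs hs' hs'' hd => ?_⟩
    refine le_trans ?_ (h v w w' hv hw hw' hs hs' hs'' hd)
    refine le_trans ?_ (keytr _)
    rw [← trsub]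
    simp only [Fml.eval]
    rw [← Complex.sub_re]
    exact Complex.abs_re_le_norm _
  | imTr t =>
    intro s s' ε hε
    obtain ⟨δ, hδ, h⟩ := keyT t s s' ε hε
    refine ⟨δ, hδ, fun v w w' hv hw hw' hs hs' hs'' hd => ?_⟩
    refine le_trans ?_ (h v w w' hv hw hw' hs hs' hs'' hd)
    refine le_trans ?_ (keytr _)
    rw [← trsub]
    simp only [Fml.eval]
    rw [← Complex.sub_im]
    exact Complex.abs_im_le_norm _
  | dist t u =>
    intro s s' ε hε
    obtain ⟨δ, hδ, h⟩ := keyT t s s' (ε / 2) (by positivity)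
    obtain ⟨δ', hδ', h'⟩ := keyT u s s' (ε / 2) (by positivity)
    refine ⟨min δ δ', lt_min hδ hδ', fun v w w' hv hw hw' hs hs' hs'' hd => ?_⟩
    have h1 := h v w w' hv hw hw' hs hs' hs'' fun i => (hd i).trans (min_le_left _ _)
    have h2 := h' v w w' hv hw hw' hs hs' hs'' fun i => (hd i).trans (min_le_right _ _)
    simp only [Fml.eval, TracialVN.norm2] at h1 h2 ⊢
    refine (abs_norm_sub_norm_le _ _).trans ?_
    simp only [sub_apply] at h1 h2 ⊢
    have e : ∀ a b c d : M.H, (a - b) - (c - d) = (a - c) - (b - d) := by intros; abel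
    rw [e]
    refine (norm_sub_le _ _).trans ?_
    linarith
  | conn u φ ih =>
    intro s s' ε hε
    choose C hC using fun i => Fml.exists_bound M (φ i) s s'
    have hcomp : IsCompact (Set.univ.pi fun i => Set.Icc (-(C i)) (C i)) :=
      isCompact_univ_pi fun i => isCompact_Icc
    have huc := hcomp.uniformContinuousOn_of_continuous u.continuous.continuousOn
    rw [Metric.uniformContinuousOn_iff] at huc
    obtain ⟨η, hη, hu⟩ := huc ε hε
    choose δ hδ h using fun i => ih i s s' (η / 2) (by positivity)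
    obtain ⟨δ', hδ', hle⟩ : ∃ δ' : ℝ, 0 < δ' ∧ ∀ i, δ' ≤ δ i := by
      rename_i m
      rcases isEmpty_or_nonempty (Fin m) with hm | hm
      · exact ⟨1, one_pos, fun i => (hm.false i).elim⟩
      · exact ⟨Finset.univ.inf' Finset.univ_nonempty δ, by simpa using hδ,
          fun i => Finset.inf'_le _ (Finset.mem_univ i)⟩
    refine ⟨δ', hδ', fun v w w' hv hw hw' hs hs' hs'' hd => ?_⟩
    have := hu (fun i => (φ i).eval M v w) (fun i _ => abs_le.mp (hC i v w hv hw hs hs'))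
      (fun i => (φ i).eval M v w') (fun i _ => abs_le.mp (hC i v w' hv hw' hs hs'')) ?_
    · exact (Real.dist_eq _ _ ▸ this).le
    · refine lt_of_le_of_lt ?_ (half_lt_self hη)
      rw [dist_pi_le_iff (by positivity)]
      intro i
      rw [Real.dist_eq]
      exact h i v w w' hv hw hw' hs hs' hs'' fun j => (hd j).trans (hle i)
  | sup n φ ih =>
    intro s s' ε hε
    obtain ⟨C, hC⟩ := Fml.exists_bound M φ s (Fin.snoc s' n)
    obtain ⟨δ, hδ, h⟩ := ih s (Fin.snoc s' n) ε hε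
    refine ⟨δ, hδ, fun v w w' hv hw hw' hs hs' hs'' hd => abs_iSup_sub_iSup_le (C := C) ?_ ?_ ?_⟩
    · exact fun x => hC v _ hv (snoc_mem hw x.2.1) hs (snoc_norm hs' x.2.2)
    · exact fun x => hC v _ hv (snoc_mem hw' x.2.1) hs (snoc_norm hs'' x.2.2)
    · exact fun x => h v _ _ hv (snoc_mem hw x.2.1) (snoc_mem hw' x.2.1) hs
        (snoc_norm hs' x.2.2) (snoc_norm hs'' x.2.2)
        (snoc_norm2 hd (by simpa [norm2_zero] using hδ.le))
  | inf n φ ih =>
    intro s s' ε hε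
    obtain ⟨C, hC⟩ := Fml.exists_bound M φ s (Fin.snoc s' n)
    obtain ⟨δ, hδ, h⟩ := ih s (Fin.snoc s' n) ε hε
    refine ⟨δ, hδ, fun v w w' hv hw hw' hs hs' hs'' hd => abs_iInf_sub_iInf_le (C := C) ?_ ?_ ?_⟩
    · exact fun x => hC v _ hv (snoc_mem hw x.2.1) hs (snoc_norm hs' x.2.2)
    · exact fun x => hC v _ hv (snoc_mem hw' x.2.1) hs (snoc_norm hs'' x.2.2)
    · exact fun x => h v _ _ hv (snoc_mem hw x.2.1) (snoc_mem hw' x.2.1) hs
        (snoc_norm hs' x.2.2) (snoc_norm hs'' x.2.2)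
        (snoc_norm2 hd (by simpa [norm2_zero] using hδ.le))

end Bounds

section Aut

/-- A spatial automorphism of a tracial von Neumann algebra. -/
structure SpatialAut (M : TracialVN) where
  /-- the unitary -/
  U : M.H ≃ₗᵢ[ℂ] M.H
  map_Ω : U M.Ω = M.Ω
  map_mem : ∀ x ∈ M.alg, U.conjStarAlgEquiv x ∈ M.alg
  symm_mem : ∀ x ∈ M.alg, U.conjStarAlgEquiv.symm x ∈ M.alg

variable {M : TracialVN} (A : SpatialAut M)

/-- The automorphism of the algebra of all operators. -/
noncomputable def SpatialAut.θ : M.Op ≃⋆ₐ[ℂ] M.Op := A.U.conjStarAlgEquiv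

theorem SpatialAut.θ_apply (x : M.Op) (ξ : M.H) : A.θ x ξ = A.U (x (A.U.symm ξ)) := rfl

theorem SpatialAut.symm_Ω : A.U.symm M.Ω = M.Ω := by
  rw [LinearIsometryEquiv.symm_apply_eq]
  exact A.map_Ω.symm

theorem SpatialAut.norm_θ (x : M.Op) : ‖A.θ x‖ = ‖x‖ := by
  exact NonUnitalStarAlgHom.norm_map (A.θ : M.Op →⋆ₐ[ℂ] M.Op) A.θ.injective x

theorem SpatialAut.norm2_θ (x : M.Op) : M.norm2 (A.θ x) = M.norm2 x := by
  unfold TracialVN.norm2
  rw [A.θ_apply, A.symm_Ω, LinearIsometryEquiv.norm_map]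

theorem SpatialAut.tr_θ (x : M.Op) : M.tr (A.θ x) = M.tr x := by
  unfold TracialVN.tr
  rw [A.θ_apply, A.symm_Ω]
  calc ⟪M.Ω, A.U (x M.Ω)⟫_ℂ = ⟪A.U M.Ω, A.U (x M.Ω)⟫_ℂ := by rw [A.map_Ω]
    _ = ⟪M.Ω, x M.Ω⟫_ℂ := LinearIsometryEquiv.inner_map_map _ _ _

theorem SpatialAut.term {V : Type} (v : V → M.Op) (t : Tm V) :
    t.eval M (fun i => A.θ (v i)) = A.θ (t.eval M v) := by
  induction t with
  | var x => rfl
  | zero => exact (map_zero _).symm
  | one => exact (map_one _).symm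
  | add t s iht ihs => simp only [Tm.eval, iht, ihs, map_add]
  | mul t s iht ihs => simp only [Tm.eval, iht, ihs, map_mul]
  | adj t iht => simp only [Tm.eval, iht, map_star]
  | smul c t iht => simp only [Tm.eval, iht, map_smul]

/-- The bijection of a sort induced by an automorphism. -/
noncomputable def SpatialAut.ballEquiv (n : ℕ) : M.Ball n ≃ M.Ball n where
  toFun x := ⟨A.θ x.1, A.map_mem _ x.2.1, (A.norm_θ x.1).le.trans x.2.2⟩
  invFun x := ⟨A.θ.symm x.1, A.symm_mem _ x.2.1, by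
    rw [← A.norm_θ (A.θ.symm x.1), StarAlgEquiv.apply_symm_apply]
    exact x.2.2⟩
  left_inv x := by
    apply Subtype.ext
    exact A.θ.symm_apply_apply x.1
  right_inv x := by
    apply Subtype.ext
    exact A.θ.apply_symm_apply x.1

theorem SpatialAut.eval {V : Type} (v : V → M.Op) {k : ℕ} (φ : Fml V k) :
    ∀ w : Fin k → M.Op, φ.eval M (fun i => A.θ (v i)) (fun i => A.θ (w i)) = φ.eval M v w := by
  have e : ∀ {k : ℕ} (w : Fin k → M.Op), (Sum.elim (fun i => A.θ (v i)) fun i => A.θ (w i))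
      = fun i => A.θ (Sum.elim v w i) := by
    intro k w
    funext i
    rcases i with i | i <;> rfl
  have e' : ∀ {k : ℕ} (w : Fin k → M.Op) (x : M.Op),
      (Fin.snoc (fun i => A.θ (w i)) (A.θ x) : Fin (k + 1) → M.Op)
      = fun i => A.θ ((Fin.snoc w x : Fin (k + 1) → M.Op) i) := by
    intro k w x
    funext i
    refine Fin.lastCases ?_ (fun j => ?_) i
    · rw [Fin.snoc_last, Fin.snoc_last]
    · rw [Fin.snoc_castSucc, Fin.snoc_castSucc]
  induction φ with
  | reTr t => intro w; simp only [Fml.eval]; rw [e, A.term, A.tr_θ]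
  | imTr t => intro w; simp only [Fml.eval]; rw [e, A.term, A.tr_θ]
  | dist t u => intro w; simp only [Fml.eval]; rw [e, A.term, A.term, ← map_sub, A.norm2_θ]
  | conn u φ ih => intro w; simp only [Fml.eval, ih]
  | sup n φ ih =>
    intro w
    simp only [Fml.eval]
    rw [← (A.ballEquiv n).iSup_comp]
    refine iSup_congr fun x => ?_
    rw [← ih (Fin.snoc w x.1), ← e']
    rfl
  | inf n φ ih =>
    intro w
    simp only [Fml.eval]
    rw [← (A.ballEquiv n).iInf_comp]
    refine iInf_congr fun x => ?_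
    rw [← ih (Fin.snoc w x.1), ← e']
    rfl

theorem SpatialAut.val_eq {V : Type} (v : V → M.Op) (φ : Fml V 0) :
    val M φ (fun i => A.θ (v i)) = val M φ v := by
  unfold val
  rw [← A.eval v φ Fin.elim0]
  congr 1
  funext i
  exact i.elim0

end Aut



theorem two_toReal_pos : 0 < (2 : ENNReal).toReal := by norm_num

theorem ell2_norm_sq {X : Type} (ξ : ell2 X) : ‖ξ‖ ^ 2 = ∑' x, ‖(ξ : X → ℂ) x‖ ^ 2 := by
  have h := lp.norm_rpow_eq_tsum two_toReal_pos ξ
  simpa using h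

theorem ell2_summable {X : Type} (ξ : ell2 X) : Summable fun x => ‖(ξ : X → ℂ) x‖ ^ 2 := by
  have h := (lp.memℓp ξ).summable two_toReal_pos
  simpa using h

section Lam

variable {G : Type} [Group G] {K : Type} [Fintype K]

/-- The element `∑_k b(k) λ(p k)` of the group algebra of `G`. -/
noncomputable def Lam (p : K → G) (b : K → ℂ) : ell2 G →L[ℂ] ell2 G := ∑ k, b k • leftT (p k)

theorem Lam_mem (p : K → G) (b : K → ℂ) : Lam p b ∈ groupVN G :=
  sum_mem fun k _ => smul_mem_alg (M := ofGroup G) (b k) (leftT_mem (p k))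

theorem Lam_apply (p : K → G) (b : K → ℂ) (ξ : ell2 G) (g : G) :
    (Lam p b ξ : G → ℂ) g = ∑ k, b k * (ξ : G → ℂ) ((p k)⁻¹ * g) := by
  unfold Lam
  rw [sum_apply, lp.coeFn_sum, Finset.sum_apply]
  rfl

theorem Lam_delta (p : K → G) (b : K → ℂ) : Lam p b (delta 1) = ∑ k, b k • delta (p k) := by
  unfold Lam
  rw [sum_apply]
  refine Finset.sum_congr rfl fun k _ => ?_
  change b k • leftT (p k) (delta 1) = _
  rw [leftT_delta, mul_one]

omit [Group G] in
theorem sum_delta_apply (p : K → G) (hp : Function.Injective p) (b : K → ℂ) (k : K) :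
    ((∑ k, b k • delta (p k) : ell2 G) : G → ℂ) (p k) = b k := by
  classical
  rw [lp.coeFn_sum, Finset.sum_apply, Finset.sum_eq_single k]
  · rw [lp.coeFn_smul, Pi.smul_apply, delta_apply, if_pos rfl, smul_eq_mul, mul_one]
  · intro l _ hl
    rw [lp.coeFn_smul, Pi.smul_apply, delta_apply, if_neg fun h => hl (hp h).symm, smul_zero]
  · intro h
    exact absurd (Finset.mem_univ k) h

omit [Group G] in
theorem sum_delta_apply_of_notMem (p : K → G) (b : K → ℂ) (g : G) (hg : g ∉ Set.range p) :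
    ((∑ k, b k • delta (p k) : ell2 G) : G → ℂ) g = 0 := by
  classical
  rw [lp.coeFn_sum, Finset.sum_apply]
  refine Finset.sum_eq_zero fun l _ => ?_
  rw [lp.coeFn_smul, Pi.smul_apply, delta_apply, if_neg fun h => hg ⟨l, h.symm⟩, smul_zero]

omit [Group G] in
theorem norm_sq_sum_delta (p : K → G) (hp : Function.Injective p) (b : K → ℂ) :
    ‖(∑ k, b k • delta (p k) : ell2 G)‖ ^ 2 = ∑ k, ‖b k‖ ^ 2 := by
  rw [ell2_norm_sq, ← hp.tsum_eq, tsum_fintype]
  · refine Finset.sum_congr rfl fun k _ => ?_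
    rw [sum_delta_apply p hp]
  · intro g hg
    by_contra hcon
    apply hg
    simp only []
    rw [sum_delta_apply_of_notMem p b g hcon, norm_zero]
    norm_num

end Lam

section Hom

variable {G : Type} [Group G] {K : Type} [Fintype K] [Group K]

/-- Convolution. -/
noncomputable def conv (b c : K → ℂ) : K → ℂ := fun k => ∑ h, b h * c (h⁻¹ * k)

/-- Adjoint. -/
noncomputable def adjF (b : K → ℂ) : K → ℂ := fun k => (starRingEnd ℂ) (b k⁻¹)

omit [Group K] in
theorem Lam_add (p : K → G) (b c : K → ℂ) : Lam p (b + c) = Lam p b + Lam p c := by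
  unfold Lam
  rw [← Finset.sum_add_distrib]
  refine Finset.sum_congr rfl fun k _ => ?_
  rw [Pi.add_apply, add_smul]

omit [Group K] in
theorem Lam_sub (p : K → G) (b c : K → ℂ) : Lam p (b - c) = Lam p b - Lam p c := by
  unfold Lam
  rw [← Finset.sum_sub_distrib]
  refine Finset.sum_congr rfl fun k _ => ?_
  rw [Pi.sub_apply, sub_smul]

omit [Group K] in
theorem Lam_smul (p : K → G) (a : ℂ) (c : K → ℂ) : Lam p (a • c) = a • Lam p c := by
  unfold Lam
  rw [Finset.smul_sum]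
  refine Finset.sum_congr rfl fun k _ => ?_
  rw [Pi.smul_apply, smul_smul]
  rfl

omit [Group K] in
theorem Lam_zero (p : K → G) : Lam p 0 = 0 := by
  unfold Lam
  simp

open Classical in
/-- Unit. -/
noncomputable def oneF : K → ℂ := fun k => if k = 1 then 1 else 0

theorem Lam_one (p : K →* G) : Lam p oneF = 1 := by
  classical
  unfold Lam oneF
  rw [Finset.sum_eq_single 1]
  · rw [if_pos rfl, one_smul, map_one, leftT_one]
  · intro k _ hk
    rw [if_neg hk, zero_smul]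
  · intro h
    exact absurd (Finset.mem_univ _) h

theorem Lam_conv (p : K →* G) (b c : K → ℂ) : Lam p (conv b c) = Lam p b * Lam p c := by
  unfold Lam conv
  rw [Finset.sum_mul_sum]
  simp_rw [Finset.sum_smul]
  rw [Finset.sum_comm]
  refine Finset.sum_congr rfl fun h _ => ?_
  rw [← Equiv.sum_comp (Equiv.mulLeft h)]
  refine Finset.sum_congr rfl fun k _ => ?_
  rw [Equiv.coe_mulLeft, inv_mul_cancel_left, map_mul, leftT_mul, smul_mul_smul_comm]

theorem Lam_adjF (p : K →* G) (b : K → ℂ) : Lam p (adjF b) = star (Lam p b) := by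
  unfold Lam adjF
  rw [star_sum, ← Equiv.sum_comp (Equiv.inv K)]
  refine Finset.sum_congr rfl fun k _ => ?_
  rw [star_smul, leftT_star, Equiv.inv_apply, inv_inv, map_inv]
  rfl

/-- Value of a term in the group algebra of `K`. -/
noncomputable def Tm.fin {V : Type} (x : V → K → ℂ) : Tm V → (K → ℂ)
  | .var i => x i
  | .zero => 0
  | .one => oneF
  | .add t s => t.fin x + s.fin x
  | .mul t s => conv (t.fin x) (s.fin x)
  | .adj t => adjF (t.fin x)
  | .smul c t => c • t.fin x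

theorem Tm.eval_Lam (p : K →* G) {V : Type} (x : V → K → ℂ) (t : Tm V) :
    t.eval (ofGroup G) (fun i => Lam p (x i)) = Lam p (t.fin x) := by
  induction t with
  | var i => rfl
  | zero => exact (Lam_zero p).symm
  | one => exact (Lam_one p).symm
  | add t s iht ihs => simp only [Tm.eval, Tm.fin, iht, ihs]; exact (Lam_add _ _ _).symm
  | mul t s iht ihs => simp only [Tm.eval, Tm.fin, iht, ihs]; exact (Lam_conv _ _ _).symm
  | adj t iht => simp only [Tm.eval, Tm.fin, iht]; exact (Lam_adjF _ _).symm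
  | smul c t iht => simp only [Tm.eval, Tm.fin, iht]; exact (Lam_smul _ _ _).symm

theorem tr_Lam (p : K →* G) (hp : Function.Injective p) (b : K → ℂ) :
    (ofGroup G).tr (Lam p b) = b 1 := by
  change ⟪delta 1, Lam p b (delta 1)⟫_ℂ = b 1
  rw [inner_delta_left, Lam_delta]
  have := sum_delta_apply p hp b 1
  rwa [map_one] at this

theorem norm2_Lam (p : K →* G) (hp : Function.Injective p) (b : K → ℂ) :
    (ofGroup G).norm2 (Lam p b) = Real.sqrt (∑ k, ‖b k‖ ^ 2) := by
  change ‖Lam p b (delta 1)‖ = _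
  rw [Lam_delta, ← norm_sq_sum_delta p hp b, Real.sqrt_sq (norm_nonneg _)]

theorem norm2_Lam_sub (p : K →* G) (hp : Function.Injective p) (b c : K → ℂ) :
    (ofGroup G).norm2 ((Lam p b : (ofGroup G).Op) - (Lam p c : (ofGroup G).Op)) =
    Real.sqrt (∑ k, ‖(b - c) k‖ ^ 2) := by
  rw [← norm2_Lam p hp, Lam_sub]

/-- The norm of `∑ b(k) λ(p k)` is at most the norm of `b` in the regular representation
of `K`. -/
theorem norm_Lam_le (p : K →* G) (b : K → ℂ) :
    ‖Lam p b‖ ≤ ‖Lam (MonoidHom.id K) b‖ := by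
  refine ContinuousLinearMap.opNorm_le_bound _ (norm_nonneg _) fun ξ => ?_
  set C := ‖Lam (MonoidHom.id K) b‖ with hC
  have hC0 : 0 ≤ C := norm_nonneg _
  refine le_of_sq_le_sq ?_ (mul_nonneg hC0 (norm_nonneg _))
  rw [mul_pow]
  have hcard : (0 : ℝ) < Fintype.card K := by exact_mod_cast Fintype.card_pos
  -- translation invariance
  have trans : ∀ ζ : ell2 G, (Fintype.card K : ℝ) * ‖ζ‖ ^ 2
      = ∑' g : G, ∑ h : K, ‖(ζ : G → ℂ) (p h * g)‖ ^ 2 := by
    intro ζ
    rw [Summable.tsum_finsetSum]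
    · rw [Finset.sum_congr rfl fun (h : K) _ => ?_, Finset.sum_const, nsmul_eq_mul,
        Finset.card_univ]
      rw [ell2_norm_sq]
      exact (Equiv.mulLeft (p h)).tsum_eq fun g => ‖(ζ : G → ℂ) g‖ ^ 2
    · intro h _
      exact (Equiv.mulLeft (p h)).summable_iff (f := fun g => ‖(ζ : G → ℂ) g‖ ^ 2) |>.mpr
        (ell2_summable ζ)
  have summ : ∀ ζ : ell2 G, Summable fun g : G => ∑ h : K, ‖(ζ : G → ℂ) (p h * g)‖ ^ 2 := by
    intro ζ
    refine summable_sum fun h _ => ?_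
    exact (Equiv.mulLeft (p h)).summable_iff (f := fun g => ‖(ζ : G → ℂ) g‖ ^ 2) |>.mpr
        (ell2_summable ζ)
  have loc : ∀ g : G, ∑ h : K, ‖(Lam p b ξ : G → ℂ) (p h * g)‖ ^ 2
      ≤ C ^ 2 * ∑ h : K, ‖(ξ : G → ℂ) (p h * g)‖ ^ 2 := by
    intro g
    let η : ell2 K := ⟨fun h => (ξ : G → ℂ) (p h * g), Memℓp.all _⟩
    have h1 := (Lam (MonoidHom.id K) b).le_opNorm η
    have h2 : ‖Lam (MonoidHom.id K) b η‖ ^ 2 ≤ C ^ 2 * ‖η‖ ^ 2 := by
      rw [← mul_pow]
      exact pow_le_pow_left₀ (norm_nonneg _) h1 2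
    rw [ell2_norm_sq, ell2_norm_sq, tsum_fintype, tsum_fintype] at h2
    refine le_trans (le_of_eq ?_) h2
    refine Finset.sum_congr rfl fun h _ => ?_
    rw [Lam_apply, Lam_apply]
    congr 2
    refine Finset.sum_congr rfl fun k _ => ?_
    change _ = b k * (ξ : G → ℂ) (p (k⁻¹ * h) * g)
    rw [map_mul, map_inv, mul_assoc]
  have h3 : (Fintype.card K : ℝ) * ‖Lam p b ξ‖ ^ 2 ≤ (Fintype.card K : ℝ) * (C ^ 2 * ‖ξ‖ ^ 2) := by
    rw [trans, mul_left_comm, trans, ← tsum_mul_left]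
    exact (summ _).tsum_le_tsum loc ((summ ξ).mul_left _)
  exact le_of_mul_le_mul_left h3 hcard

/-- Compression of an element of `L(G)` to the group algebra of `K`. -/
theorem norm_Lam_coeff_le (p : K →* G) (hp : Function.Injective p) {y : ell2 G →L[ℂ] ell2 G}
    (hy : y ∈ groupVN G) :
    ‖Lam (MonoidHom.id K) fun k => (y (delta 1) : G → ℂ) (p k)‖ ≤ ‖y‖ := by
  refine ContinuousLinearMap.opNorm_le_bound _ (norm_nonneg _) fun η => ?_
  refine le_of_sq_le_sq ?_ (mul_nonneg (norm_nonneg _) (norm_nonneg _))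
  have h1 : ‖(∑ k, (η : K → ℂ) k • delta (p k) : ell2 G)‖ ^ 2 = ‖η‖ ^ 2 := by
    rw [norm_sq_sum_delta p hp, ell2_norm_sq, tsum_fintype]
  have h2 := y.le_opNorm (∑ k, (η : K → ℂ) k • delta (p k) : ell2 G)
  have h3 : ‖y (∑ k, (η : K → ℂ) k • delta (p k) : ell2 G)‖ ^ 2 ≤ (‖y‖ * ‖η‖) ^ 2 := by
    rw [mul_pow, ← h1, ← mul_pow]
    exact pow_le_pow_left₀ (norm_nonneg _) h2 2
  refine le_trans ?_ h3
  rw [ell2_norm_sq, ell2_norm_sq, tsum_fintype]
  have h4 : ∀ h : K, (y (∑ k, (η : K → ℂ) k • delta (p k) : ell2 G) : G → ℂ) (p h)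
      = (Lam (MonoidHom.id K) (fun k => (y (delta 1) : G → ℂ) (p k)) η : K → ℂ) h := by
    intro h
    rw [Lam_apply, map_sum, lp.coeFn_sum, Finset.sum_apply,
      ← Equiv.sum_comp ((Equiv.inv K).trans (Equiv.mulLeft h))
        (fun k => (y (delta 1) : G → ℂ) (p k) * (η : K → ℂ) (((MonoidHom.id K) k)⁻¹ * h))]
    refine Finset.sum_congr rfl fun k _ => ?_
    rw [map_smul, lp.coeFn_smul, Pi.smul_apply, apply_delta hy]
    simp [mul_comm]
  simp_rw [← h4]
  have h5 := (ell2_summable (y (∑ k, (η : K → ℂ) k • delta (p k) : ell2 G))).sum_le_tsum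
    (Finset.univ.map ⟨p, hp⟩) (fun _ _ => by positivity)
  rwa [Finset.sum_map] at h5

theorem norm_Lam_eq (p : K →* G) (hp : Function.Injective p) (b : K → ℂ) :
    ‖Lam p b‖ = ‖Lam (MonoidHom.id K) b‖ := by
  refine le_antisymm (norm_Lam_le p b) ?_
  have h := norm_Lam_coeff_le p hp (Lam_mem p b)
  have e : (fun k => (Lam p b (delta 1) : G → ℂ) (p k)) = b := by
    funext k
    rw [Lam_delta, sum_delta_apply p hp]
  rwa [e] at h

end Hom

/-- We use this instance throughout. -/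
noncomputable instance permFintype (α : Type) [Finite α] : Fintype (Equiv.Perm α) :=
  Fintype.ofFinite _

section Via

variable {I α β : Type} [Finite α] [Finite β]

/-- Extend permutations of a finite set along an embedding. -/
noncomputable def via (f : α ↪ I) : Equiv.Perm α →* FinPerm I where
  toFun σ := ⟨Equiv.Perm.viaEmbedding σ f, by
    refine (Set.finite_range f).subset fun i hi => ?_
    by_contra hcon
    exact hi (Equiv.Perm.viaEmbedding_apply_of_notMem σ f i hcon)⟩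
  map_one' := by
    apply Subtype.ext
    exact map_one (Equiv.Perm.viaEmbeddingHom f)
  map_mul' σ τ := by
    apply Subtype.ext
    exact map_mul (Equiv.Perm.viaEmbeddingHom f) σ τ

theorem coe_via (f : α ↪ I) (σ : Equiv.Perm α) :
    ((via f σ : FinPerm I) : Equiv.Perm I) = Equiv.Perm.viaEmbedding σ f := rfl

theorem via_injective (f : α ↪ I) : Function.Injective (via f) := by
  intro σ τ h
  exact Equiv.Perm.viaEmbeddingHom_injective f (congrArg Subtype.val h)

theorem via_trans (ι : α ↪ β) (f : β ↪ I) (σ : Equiv.Perm α) :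
    via (ι.trans f) σ = via f (Equiv.Perm.viaEmbeddingHom ι σ) := by
  apply Subtype.ext
  rw [coe_via, coe_via, Equiv.Perm.viaEmbeddingHom_apply]
  ext i
  by_cases hi : i ∈ Set.range f
  · obtain ⟨b, rfl⟩ := hi
    rw [Equiv.Perm.viaEmbedding_apply]
    by_cases hb : b ∈ Set.range ι
    · obtain ⟨a, rfl⟩ := hb
      rw [Equiv.Perm.viaEmbedding_apply]
      exact Equiv.Perm.viaEmbedding_apply σ (ι.trans f) a
    · rw [Equiv.Perm.viaEmbedding_apply_of_notMem _ _ _ hb]
      refine Equiv.Perm.viaEmbedding_apply_of_notMem _ _ _ ?_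
      rintro ⟨a, ha⟩
      exact hb ⟨a, f.injective ha⟩
  · rw [Equiv.Perm.viaEmbedding_apply_of_notMem _ _ _ hi]
    refine Equiv.Perm.viaEmbedding_apply_of_notMem _ _ _ ?_
    rintro ⟨a, ha⟩
    exact hi ⟨ι a, ha⟩

open Classical in
/-- Push forward functions on `Perm α`. -/
noncomputable def push (ι : α ↪ β) (x : Equiv.Perm α → ℂ) : Equiv.Perm β → ℂ :=
  fun τ => ∑ σ, if Equiv.Perm.viaEmbeddingHom ι σ = τ then x σ else 0

theorem Lam_push (ι : α ↪ β) (f : β ↪ I) (x : Equiv.Perm α → ℂ) :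
    Lam (via f) (push ι x) = Lam (via (ι.trans f)) x := by
  classical
  unfold Lam push
  simp_rw [Finset.sum_smul]
  rw [Finset.sum_comm]
  refine Finset.sum_congr rfl fun σ _ => ?_
  rw [Finset.sum_eq_single (Equiv.Perm.viaEmbeddingHom ι σ)]
  · rw [if_pos rfl, via_trans]
  · intro τ _ hτ
    rw [if_neg (Ne.symm hτ), zero_smul]
  · intro h
    exact absurd (Finset.mem_univ _) h

end Via

end Pool.Agent.TVN
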