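import Pool.Agent.Lib.MP_baa3fb_lc.Lemmas

/-!
# The algebras `L(FinPerm I)`, `I` infinite, have the same theory, and
# the theory of the hyperfinite II₁ factor is not simple
-/

set_option autoImplicit false

open scoped InnerProductSpace

namespace Pool.Agent.TVN


section Via

variable {I α β : Type} [Finite α] [Finite β]

theorem exists_extend {J : Type} [Infinite J] (ι : α ↪ β) (g : α ↪ J) :
    ∃ g' : β ↪ J, ι.trans g' = g := by
  classical
  have hfin : (Set.range g).Finite := Set.finite_range g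
  have hinf : Infinite ((Set.range g)ᶜ : Set J) := hfin.infinite_compl.to_subtype
  let e : β ↪ ((Set.range g)ᶜ : Set J) :=
    (Finite.equivFin β).toEmbedding.trans (Fin.valEmbedding.trans (Infinite.natEmbedding _))
  refine ⟨⟨fun b => if h : ∃ a, ι a = b then g h.choose else (e b : J), ?_⟩, ?_⟩
  · intro b c hbc
    simp only at hbc
    by_cases hb : ∃ a, ι a = b
    · by_cases hc : ∃ a, ι a = c
      · rw [dif_pos hb, dif_pos hc] at hbc
        have := g.injective hbc
        rw [← hb.choose_spec, ← hc.choose_spec, this]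
      · rw [dif_pos hb, dif_neg hc] at hbc
        exact absurd ⟨_, hbc⟩ (e c).2
    · by_cases hc : ∃ a, ι a = c
      · rw [dif_neg hb, dif_pos hc] at hbc
        exact absurd ⟨_, hbc.symm⟩ (e b).2
      · rw [dif_neg hb, dif_neg hc] at hbc
        exact e.injective (Subtype.ext hbc)
  · ext a
    change (if h : ∃ a', ι a' = ι a then g h.choose else (e (ι a) : J)) = g a
    have h : ∃ a', ι a' = ι a := ⟨a, rfl⟩
    rw [dif_pos h, ι.injective h.choose_spec]

end Via

section Approx

variable {I : Type}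

theorem single_eq_smul_delta {G : Type} [DecidableEq G] (g : G) (c : ℂ) :
    (lp.single 2 g c : ell2 G) = c • delta g := by
  ext k
  rw [lp.single_apply, lp.coeFn_smul, Pi.smul_apply, delta_apply, Pi.single_apply]
  split_ifs with h <;> simp

theorem exists_approx_aux {β : Type} [Finite β] (f : β ↪ I)
    {y : ell2 (FinPerm I) →L[ℂ] ell2 (FinPerm I)}
    (hy : y ∈ groupVN (FinPerm I)) {δ : ℝ} (T : Finset (FinPerm I))
    (hT : ∀ S : Finset (FinPerm I), T ⊆ S →
      ‖y (delta 1) - ∑ g ∈ S, (y (delta 1) : FinPerm I → ℂ) g • (delta g : ell2 (FinPerm I))‖ ≤ δ)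
    (hf : ∀ g ∈ T, ∀ i, (g : Equiv.Perm I) i ≠ i → i ∈ Set.range f) :
    ∃ z : Equiv.Perm β → ℂ, (ofGroup (FinPerm I)).norm2 (y - Lam (via f) z) ≤ δ ∧
      ‖Lam (via f) z‖ ≤ ‖y‖ := by
  refine ⟨fun τ => (y (delta 1) : FinPerm I → ℂ) (via f τ), ?_, ?_⟩
  · change ‖(y - Lam (via f) _) (delta 1)‖ ≤ δ
    rw [sub_apply, Lam_delta]
    have h := hT (Finset.univ.map ⟨via f, via_injective f⟩) ?_
    · rwa [Finset.sum_map] at h
    · intro g hg
      rw [Finset.mem_map]
      have hmem : ∀ i, (g : Equiv.Perm I) i ≠ i → i ∈ Set.range f := hf g hg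
      have hp : ∀ i, (g : Equiv.Perm I) i ∈ Set.range f ↔ i ∈ Set.range f := by
        intro i
        by_cases hi : (g : Equiv.Perm I) i = i
        · rw [hi]
        · have h1 : (g : Equiv.Perm I) i ∈ Set.range f :=
            hmem _ fun h => hi ((g : Equiv.Perm I).injective h)
          exact ⟨fun _ => hmem i hi, fun _ => h1⟩
      let τ' : Equiv.Perm (Set.range f) := (g : Equiv.Perm I).subtypePerm hp
      let e : β ≃ Set.range f := Equiv.ofInjective f f.injective
      let τ : Equiv.Perm β := (e.trans τ').trans e.symm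
      refine ⟨τ, Finset.mem_univ _, ?_⟩
      apply Subtype.ext
      change Equiv.Perm.viaEmbedding τ f = g
      ext i
      by_cases hi : i ∈ Set.range f
      · obtain ⟨b, rfl⟩ := hi
        rw [Equiv.Perm.viaEmbedding_apply]
        have : e (τ b) = τ' (e b) := by
          change e (e.symm (τ' (e b))) = _
          rw [Equiv.apply_symm_apply]
        exact congrArg Subtype.val this
      · rw [Equiv.Perm.viaEmbedding_apply_of_notMem _ _ _ hi]
        by_contra hcon
        exact hi (hmem i fun h => hcon h.symm)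
  · rw [norm_Lam_eq (via f) (via_injective f)]
    exact norm_Lam_coeff_le (via f) (via_injective f) hy

theorem exists_approx {α : Type} [Finite α] (f : α ↪ I)
    {y : ell2 (FinPerm I) →L[ℂ] ell2 (FinPerm I)}
    (hy : y ∈ groupVN (FinPerm I)) {δ : ℝ} (hδ : 0 < δ) :
    ∃ (β : Type) (_ : Finite β) (ι : α ↪ β) (f' : β ↪ I) (z : Equiv.Perm β → ℂ),
      ι.trans f' = f ∧ (ofGroup (FinPerm I)).norm2 (y - Lam (via f') z) ≤ δ ∧
      ‖Lam (via f') z‖ ≤ ‖y‖ := by
  classical
  have hs := lp.hasSum_single (p := 2) (by norm_num) (y (delta 1))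
  rw [HasSum, Metric.tendsto_nhds] at hs
  obtain ⟨T, hT⟩ := Filter.eventually_atTop.mp (hs δ hδ)
  have hF : (Set.range f ∪ ⋃ g ∈ T, {i | (g : Equiv.Perm I) i ≠ i}).Finite := by
    refine (Set.finite_range f).union ?_
    exact T.finite_toSet.biUnion fun g _ => g.2
  set F := (Set.range f ∪ ⋃ g ∈ T, {i | (g : Equiv.Perm I) i ≠ i}) with hFdef
  have hfin : Finite F := hF.to_subtype
  have key := exists_approx_aux (I := I) (β := F) (Function.Embedding.subtype _) hy
    (δ := δ) T ?_ ?_
  · obtain ⟨z, hz⟩ := key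
    refine ⟨F, hfin, ⟨fun a => ⟨f a, Or.inl ⟨a, rfl⟩⟩, ?_⟩, Function.Embedding.subtype _, z,
      ?_, hz⟩
    · intro a b hab
      exact f.injective (congrArg Subtype.val hab)
    · ext a
      rfl
  · intro S hS
    have := hT S hS
    rw [dist_comm, dist_eq_norm] at this
    refine le_trans (le_of_eq ?_) this.le
    congr 2
    refine Finset.sum_congr rfl fun g _ => ?_
    exact (single_eq_smul_delta g _).symm
  · intro g hg i hi
    refine ⟨⟨i, Or.inr ?_⟩, rfl⟩
    simp only [Set.mem_iUnion]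
    exact ⟨g, hg, hi⟩

end Approx

section Elem

theorem Lam_mem' {I α : Type} [Finite α] (f : α ↪ I) (x : Equiv.Perm α → ℂ) :
    Lam (via f) x ∈ (ofGroup (FinPerm I)).alg := Lam_mem _ _

theorem norm_Lam_via {I J α : Type} [Finite α] (f : α ↪ I) (g : α ↪ J)
    (x : Equiv.Perm α → ℂ) : ‖Lam (via f) x‖ = ‖Lam (via g) x‖ := by
  rw [norm_Lam_eq _ (via_injective f), norm_Lam_eq _ (via_injective g)]

/-- The matching lemma. -/
theorem exists_match {k : ℕ} (φ : Fml Empty (k + 1))
    (ih : ∀ (I J : Type) [Infinite I] [Infinite J] (α : Type) [Finite α] (f : α ↪ I) (g : α ↪ J)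
      (xs : Fin (k + 1) → (Equiv.Perm α → ℂ)),
      φ.eval (ofGroup (FinPerm I)) Empty.elim (fun i => Lam (via f) (xs i)) =
      φ.eval (ofGroup (FinPerm J)) Empty.elim (fun i => Lam (via g) (xs i)))
    (n : ℕ) (I J : Type) [Infinite I] [Infinite J] (α : Type) [Finite α] (f : α ↪ I) (g : α ↪ J)
    (xs : Fin k → (Equiv.Perm α → ℂ)) (x : (ofGroup (FinPerm I)).Ball n) (ε : ℝ) (hε : 0 < ε) :
    ∃ y : (ofGroup (FinPerm J)).Ball n,
      |φ.eval (ofGroup (FinPerm I)) Empty.elim (Fin.snoc (fun i => Lam (via f) (xs i)) x.1) -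
      φ.eval (ofGroup (FinPerm J)) Empty.elim (Fin.snoc (fun i => Lam (via g) (xs i)) y.1)| ≤ ε := by
  let s : Fin k → ℝ := fun i => ‖Lam (via f) (xs i)‖
  obtain ⟨δ, hδ, hmod⟩ := Fml.exists_modulus (ofGroup (FinPerm I)) φ (fun _ => 0)
    (Fin.snoc s (n : ℝ)) ε hε
  obtain ⟨β, _, ι, f', z, hι, hz, hzn⟩ := exists_approx f x.2.1 hδ
  obtain ⟨g', hg'⟩ := exists_extend ι g
  have hf : ∀ i, Lam (via f) (xs i) = Lam (via f') (push ι (xs i)) := by
    intro i
    rw [Lam_push, hι]
  have hg : ∀ i, Lam (via g) (xs i) = Lam (via g') (push ι (xs i)) := by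
    intro i
    rw [Lam_push, hg']
  have snoc_eq : ∀ {L : Type} (h : β ↪ L),
      (Fin.snoc (fun i => Lam (via h) (push ι (xs i))) (Lam (via h) z) :
        Fin (k + 1) → (ofGroup (FinPerm L)).Op) =
      fun i => Lam (via h)
        ((Fin.snoc (fun i => push ι (xs i)) z : Fin (k + 1) → (Equiv.Perm β → ℂ)) i) := by
    intro L h
    funext i
    refine Fin.lastCases ?_ (fun j => ?_) i
    · rw [Fin.snoc_last, Fin.snoc_last]
    · rw [Fin.snoc_castSucc, Fin.snoc_castSucc]
  refine ⟨⟨Lam (via g') z, Lam_mem' _ _, ?_⟩, ?_⟩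
  · exact (norm_Lam_via f' g' z).ge.trans (hzn.trans x.2.2)
  · have e1 : φ.eval (ofGroup (FinPerm J)) Empty.elim
        (Fin.snoc (fun i => Lam (via g) (xs i)) (Lam (via g') z)) =
        φ.eval (ofGroup (FinPerm I)) Empty.elim
        (Fin.snoc (fun i => Lam (via f) (xs i)) (Lam (via f') z)) := by
      simp_rw [hf, hg]
      rw [snoc_eq g', snoc_eq f']
      exact (ih I J β f' g' _).symm
    simp only []
    rw [e1]
    refine hmod _ _ _ (fun i => i.elim) ?_ ?_ (fun i => i.elim) ?_ ?_ ?_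
    · exact snoc_mem (M := ofGroup (FinPerm I)) (fun i => Lam_mem' _ _) x.2.1
    · exact snoc_mem (M := ofGroup (FinPerm I)) (fun i => Lam_mem' _ _) (Lam_mem' _ _)
    · exact snoc_norm (M := ofGroup (FinPerm I)) (fun i => le_rfl) x.2.2
    · exact snoc_norm (M := ofGroup (FinPerm I)) (fun i => le_rfl) (hzn.trans x.2.2)
    · exact snoc_norm2 (M := ofGroup (FinPerm I)) (fun i => by
        simpa [norm2_zero] using hδ.le) hz

theorem eval_eq {k : ℕ} (φ : Fml Empty k) :
    ∀ (I J : Type) [Infinite I] [Infinite J] (α : Type) [Finite α] (f : α ↪ I) (g : α ↪ J)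
      (xs : Fin k → (Equiv.Perm α → ℂ)),
      φ.eval (ofGroup (FinPerm I)) Empty.elim (fun i => Lam (via f) (xs i)) =
      φ.eval (ofGroup (FinPerm J)) Empty.elim (fun i => Lam (via g) (xs i)) := by
  have elim_eq : ∀ {k : ℕ} {L α : Type} [Finite α] (h : α ↪ L) (xs : Fin k → (Equiv.Perm α → ℂ)),
      (Sum.elim Empty.elim (fun i => Lam (via h) (xs i)) :
        Empty ⊕ Fin k → (ofGroup (FinPerm L)).Op) =
      fun i => Lam (via h) ((Sum.elim Empty.elim xs : Empty ⊕ Fin k → (Equiv.Perm α → ℂ)) i) := by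
    intro k L α _ h xs
    funext i
    rcases i with i | i
    · exact i.elim
    · rfl
  induction φ with
  | reTr t =>
    intro I J _ _ α _ f g xs
    simp only [Fml.eval]
    rw [elim_eq f xs, elim_eq g xs, Tm.eval_Lam, Tm.eval_Lam, tr_Lam _ (via_injective f),
      tr_Lam _ (via_injective g)]
  | imTr t =>
    intro I J _ _ α _ f g xs
    simp only [Fml.eval]
    rw [elim_eq f xs, elim_eq g xs, Tm.eval_Lam, Tm.eval_Lam, tr_Lam _ (via_injective f),
      tr_Lam _ (via_injective g)]
  | dist t u =>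
    intro I J _ _ α _ f g xs
    simp only [Fml.eval]
    rw [elim_eq f xs, elim_eq g xs, Tm.eval_Lam, Tm.eval_Lam, Tm.eval_Lam, Tm.eval_Lam]
    exact (norm2_Lam_sub _ (via_injective f) _ _).trans
      (norm2_Lam_sub _ (via_injective g) _ _).symm
  | conn u φ ih =>
    intro I J _ _ α _ f g xs
    simp only [Fml.eval]
    congr 1
    funext i
    exact ih i I J α f g xs
  | sup n φ ih =>
    have half : ∀ (I J : Type) [Infinite I] [Infinite J] (α : Type) [Finite α] (f : α ↪ I)
        (g : α ↪ J) (xs : Fin _ → (Equiv.Perm α → ℂ)),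
        (Fml.sup n φ).eval (ofGroup (FinPerm I)) Empty.elim (fun i => Lam (via f) (xs i)) ≤
        (Fml.sup n φ).eval (ofGroup (FinPerm J)) Empty.elim (fun i => Lam (via g) (xs i)) := by
      intro I J _ _ α _ f g xs
      simp only [Fml.eval]
      refine ciSup_le fun x => le_of_forall_pos_le_add fun ε hε => ?_
      obtain ⟨y, hy⟩ := exists_match φ ih n I J α f g xs x ε hε
      obtain ⟨C, hC⟩ := Fml.exists_bound (ofGroup (FinPerm J)) φ (fun _ => 0)
        (Fin.snoc (fun i => ‖Lam (via g) (xs i)‖) (n : ℝ))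
      have hbdd : BddAbove (Set.range fun y : (ofGroup (FinPerm J)).Ball n =>
          φ.eval (ofGroup (FinPerm J)) Empty.elim
            (Fin.snoc (fun i => Lam (via g) (xs i)) y.1)) := by
        refine ⟨C, ?_⟩
        rintro _ ⟨y, rfl⟩
        refine (abs_le.mp (hC _ _ (fun i => i.elim) ?_ (fun i => i.elim) ?_)).2
        · exact snoc_mem (M := ofGroup (FinPerm J)) (fun i => Lam_mem' _ _) y.2.1
        · exact snoc_norm (M := ofGroup (FinPerm J)) (fun i => le_rfl) y.2.2
      have h1 := le_ciSup hbdd y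
      have h2 := (abs_le.mp hy).2
      linarith
    intro I J _ _ α _ f g xs
    exact le_antisymm (half I J α f g xs) (half J I α g f xs)
  | inf n φ ih =>
    have half : ∀ (I J : Type) [Infinite I] [Infinite J] (α : Type) [Finite α] (f : α ↪ I)
        (g : α ↪ J) (xs : Fin _ → (Equiv.Perm α → ℂ)),
        (Fml.inf n φ).eval (ofGroup (FinPerm J)) Empty.elim (fun i => Lam (via g) (xs i)) ≤
        (Fml.inf n φ).eval (ofGroup (FinPerm I)) Empty.elim (fun i => Lam (via f) (xs i)) := by
      intro I J _ _ α _ f g xs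
      simp only [Fml.eval]
      refine le_ciInf fun x => le_of_forall_pos_le_add fun ε hε => ?_
      obtain ⟨y, hy⟩ := exists_match φ ih n I J α f g xs x ε hε
      obtain ⟨C, hC⟩ := Fml.exists_bound (ofGroup (FinPerm J)) φ (fun _ => 0)
        (Fin.snoc (fun i => ‖Lam (via g) (xs i)‖) (n : ℝ))
      have hbdd : BddBelow (Set.range fun y : (ofGroup (FinPerm J)).Ball n =>
          φ.eval (ofGroup (FinPerm J)) Empty.elim
            (Fin.snoc (fun i => Lam (via g) (xs i)) y.1)) := by
        refine ⟨-C, ?_⟩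
        rintro _ ⟨y, rfl⟩
        refine (abs_le.mp (hC _ _ (fun i => i.elim) ?_ (fun i => i.elim) ?_)).1
        · exact snoc_mem (M := ofGroup (FinPerm J)) (fun i => Lam_mem' _ _) y.2.1
        · exact snoc_norm (M := ofGroup (FinPerm J)) (fun i => le_rfl) y.2.2
      have h1 := ciInf_le hbdd y
      have h2 := (abs_le.mp hy).1
      linarith
    intro I J _ _ α _ f g xs
    exact le_antisymm (half J I α g f xs) (half I J α f g xs)

/-- For infinite `I` and `J`, the sentences have the same values in `L(FinPerm I)` and in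
`L(FinPerm J)`. -/
theorem sentence_eq (I J : Type) [Infinite I] [Infinite J] (φ : Fml Empty 0) :
    val (ofGroup (FinPerm I)) φ Empty.elim = val (ofGroup (FinPerm J)) φ Empty.elim := by
  have h := eval_eq φ I J Empty ⟨Empty.elim, fun a => a.elim⟩ ⟨Empty.elim, fun a => a.elim⟩
    Fin.elim0
  have e : ∀ {L : Type}, (fun i : Fin 0 => Lam (via (⟨Empty.elim, fun a => a.elim⟩ : Empty ↪ L))
      ((Fin.elim0 i : Equiv.Perm Empty → ℂ))) = Fin.elim0 := by
    intro L
    funext i
    exact i.elim0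
  rw [e, e] at h
  exact h

theorem models_theory (I : Type) [Infinite I] : Models (ofGroup (FinPerm I)) (theory hyperfiniteR) := by
  intro φ hφ
  rw [sentence_eq I ℕ φ]
  exact hφ

end Elem



section GroupAut

variable {G : Type} [Group G]

/-- The unitary on `ℓ²(G)` induced by an automorphism of `G`. -/
noncomputable def autU (c : G ≃* G) : ell2 G ≃ₗᵢ[ℂ] ell2 G := reindex c.toEquiv

theorem autU_leftT (c : G ≃* G) (g : G) :
    (autU c).conjStarAlgEquiv (leftT g) = leftT (c g) := by
  ext ξ k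
  rw [LinearIsometryEquiv.conjStarAlgEquiv_apply_apply]
  change ((autU c).symm ξ : G → ℂ) (g⁻¹ * c.symm k) = (ξ : G → ℂ) ((c g)⁻¹ * k)
  change (ξ : G → ℂ) (c (g⁻¹ * c.symm k)) = _
  rw [map_mul, map_inv, MulEquiv.apply_symm_apply]

theorem autU_symm_leftT (c : G ≃* G) (g : G) :
    (autU c).conjStarAlgEquiv.symm (leftT g) = leftT (c.symm g) := by
  rw [StarAlgEquiv.symm_apply_eq, autU_leftT, MulEquiv.apply_symm_apply]

theorem double_centralizer_map {A : Type*} [Ring A] [Algebra ℂ A] [StarRing A] (θ : A ≃⋆ₐ[ℂ] A)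
    {S : Set A} (h1 : ∀ s ∈ S, θ s ∈ S) {x : A}
    (hx : x ∈ Set.centralizer (Set.centralizer S)) :
    θ x ∈ Set.centralizer (Set.centralizer S) := by
  rw [Set.mem_centralizer_iff] at hx ⊢
  intro z hz
  rw [Set.mem_centralizer_iff] at hz
  have h3 : θ.symm z ∈ Set.centralizer S := by
    rw [Set.mem_centralizer_iff]
    intro s hs
    have key : θ (s * θ.symm z) = θ (θ.symm z * s) := by
      rw [map_mul, map_mul, StarAlgEquiv.apply_symm_apply]
      exact hz _ (h1 s hs)
    have key2 := congrArg θ.symm key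
    rwa [StarAlgEquiv.symm_apply_apply, StarAlgEquiv.symm_apply_apply] at key2
  have h4 := congrArg θ (hx _ h3)
  rwa [map_mul, map_mul, StarAlgEquiv.apply_symm_apply] at h4

/-- The spatial automorphism of `L(G)` induced by an automorphism of `G`. -/
noncomputable def groupAut (c : G ≃* G) : SpatialAut (ofGroup G) where
  U := autU c
  map_Ω := by
    change autU c (delta 1) = delta 1
    ext k
    change ((delta 1 : ell2 G) : G → ℂ) (c.symm k) = _
    have h : c.symm k = 1 ↔ k = 1 := by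
      rw [MulEquiv.symm_apply_eq, map_one]
    rw [delta_apply, delta_apply]
    by_cases hk : k = 1
    · rw [if_pos hk, if_pos (h.mpr hk)]
    · rw [if_neg hk, if_neg fun h' => hk (h.mp h')]
  map_mem x hx := by
    change x ∈ (groupVN G : Set (ell2 G →L[ℂ] ell2 G)) at hx
    change _ ∈ (groupVN G : Set (ell2 G →L[ℂ] ell2 G))
    rw [coe_groupVN] at hx ⊢
    refine double_centralizer_map ((autU c).conjStarAlgEquiv) ?_ hx
    rintro _ ⟨g, rfl⟩
    exact ⟨c g, (autU_leftT c g).symm⟩
  symm_mem x hx := by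
    change x ∈ (groupVN G : Set (ell2 G →L[ℂ] ell2 G)) at hx
    change _ ∈ (groupVN G : Set (ell2 G →L[ℂ] ell2 G))
    rw [coe_groupVN] at hx ⊢
    refine double_centralizer_map ((autU c).conjStarAlgEquiv.symm) ?_ hx
    rintro _ ⟨g, rfl⟩
    exact ⟨c.symm g, (autU_symm_leftT c g).symm⟩

theorem groupAut_leftT (c : G ≃* G) (g : G) : (groupAut c).θ (leftT g) = leftT (c g) :=
  autU_leftT c g

theorem norm2_leftT_sub {g h : G} (hgh : g ≠ h) :
    1 ≤ (ofGroup G).norm2 ((leftT g : (ofGroup G).Op) - (leftT h : (ofGroup G).Op)) := by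
  change 1 ≤ ‖(leftT g - leftT h) (delta 1)‖
  refine le_trans ?_ (lp.norm_apply_le_norm (by norm_num) _ g)
  rw [sub_apply, leftT_delta, leftT_delta, lp.coeFn_sub, Pi.sub_apply, delta_apply, delta_apply,
    mul_one, mul_one, if_pos rfl, if_neg hgh]
  simp

theorem norm_leftT_le (g : G) : ‖leftT g‖ ≤ 1 := by
  refine ContinuousLinearMap.opNorm_le_bound _ zero_le_one fun ξ => ?_
  rw [one_mul]
  exact (LinearIsometryEquiv.norm_map (reindex (Equiv.mulLeft g)) ξ).le

theorem leftT_injective : Function.Injective (leftT : G → (ell2 G →L[ℂ] ell2 G)) := by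
  intro g h hgh
  by_contra hne
  have h2 : (leftT g : (ofGroup G).Op) - (leftT h : (ofGroup G).Op) = (0 : (ofGroup G).Op) :=
    sub_eq_zero.mpr hgh
  have h1 : 1 ≤ (ofGroup G).norm2 (0 : (ofGroup G).Op) := h2 ▸ norm2_leftT_sub hne
  rw [norm2_zero] at h1
  exact absurd h1 (by norm_num)

end GroupAut

section PermAut

variable {I : Type}

theorem perm_apply_inv (σ : Equiv.Perm I) (i : I) : σ (σ⁻¹ i) = i := σ.apply_symm_apply i

theorem perm_inv_apply (σ : Equiv.Perm I) (i : I) : σ⁻¹ (σ i) = i := σ.symm_apply_apply i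

/-- The automorphism of `FinPerm I` induced by a permutation of `I`. -/
def conjFin (σ : Equiv.Perm I) : FinPerm I ≃* FinPerm I where
  toFun g := ⟨σ * g * σ⁻¹, by
    have h : {i | (g : Equiv.Perm I) i ≠ i}.Finite := g.2
    refine (h.image σ).subset ?_
    intro i hi
    refine ⟨σ⁻¹ i, ?_, ?_⟩
    · intro h
      apply hi
      rw [Equiv.Perm.mul_apply, Equiv.Perm.mul_apply, h, perm_apply_inv]
    · rw [perm_apply_inv]⟩
  invFun g := ⟨σ⁻¹ * g * σ, by
    have h : {i | (g : Equiv.Perm I) i ≠ i}.Finite := g.2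
    refine (h.image (σ⁻¹ : Equiv.Perm I)).subset ?_
    intro i hi
    refine ⟨σ i, ?_, ?_⟩
    · intro h
      apply hi
      rw [Equiv.Perm.mul_apply, Equiv.Perm.mul_apply, h, perm_inv_apply]
    · rw [perm_inv_apply]⟩
  left_inv g := by
    apply Subtype.ext
    simp [mul_assoc]
  right_inv g := by
    apply Subtype.ext
    simp [mul_assoc]
  map_mul' g h := by
    apply Subtype.ext
    simp [mul_assoc]

theorem coe_conjFin (σ : Equiv.Perm I) (g : FinPerm I) :
    ((conjFin σ g : FinPerm I) : Equiv.Perm I) = σ * g * σ⁻¹ := rfl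

open Classical in
/-- A transposition as a finitary permutation. -/
noncomputable def finSwap (a b : I) : FinPerm I := ⟨Equiv.swap a b, by
  refine ((Set.finite_singleton a).union (Set.finite_singleton b)).subset ?_
  intro i hi
  by_contra hcon
  simp only [Set.mem_union, Set.mem_singleton_iff, not_or] at hcon
  exact hi (Equiv.swap_apply_of_ne_of_ne hcon.1 hcon.2)⟩

theorem conjFin_finSwap (σ : Equiv.Perm I) (a b : I) :
    conjFin σ (finSwap a b) = finSwap (σ a) (σ b) := by
  apply Subtype.ext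
  rw [coe_conjFin]
  classical
  exact (Equiv.swap_apply_apply σ a b).symm

theorem finSwap_apply_left (a b : I) : (finSwap a b : Equiv.Perm I) a = b := by
  classical
  exact Equiv.swap_apply_left a b

theorem finSwap_apply_of_ne_of_ne {a b x : I} (h1 : x ≠ a) (h2 : x ≠ b) :
    (finSwap a b : Equiv.Perm I) x = x := by
  classical
  exact Equiv.swap_apply_of_ne_of_ne h1 h2

end PermAut

section Main

/-- The index set. -/
abbrev Idx : Type := ℝ × ℕ × Bool

/-- The model used. -/
noncomputable abbrev MM : TracialVN := ofGroup (FinPerm Idx)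

/-- The transpositions. -/
noncomputable def tt (α : ℝ) (n : ℕ) : FinPerm Idx := finSwap (α, n, false) (α, n, true)

theorem tt_inj {α β : ℝ} {n m : ℕ} (h : tt α n = tt β m) : α = β ∧ n = m := by
  have h2 : ((tt α n : FinPerm Idx) : Equiv.Perm Idx) (α, n, false) =
      ((tt β m : FinPerm Idx) : Equiv.Perm Idx) (α, n, false) := by rw [h]
  unfold tt at h2
  rw [finSwap_apply_left] at h2
  by_contra hcon
  have hne1 : ((α, n, false) : Idx) ≠ (β, m, false) := by
    intro h3
    simp only [Prod.mk.injEq] at h3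
    exact hcon ⟨h3.1, h3.2.1⟩
  have hne2 : ((α, n, false) : Idx) ≠ (β, m, true) := by
    intro h3
    simp only [Prod.mk.injEq] at h3
    exact absurd h3.2.2 (by decide)
  rw [finSwap_apply_of_ne_of_ne hne1 hne2] at h2
  simp only [Prod.mk.injEq] at h2
  exact absurd h2.2.2 (by decide)

/-- The permutation of the index set that acts by `π` on the blocks `α ∈ F`. -/
noncomputable def blockPerm (F : Set ℝ) (π : Equiv.Perm ℕ) : Equiv.Perm Idx where
  toFun q := by classical exact if q.1 ∈ F then (q.1, π q.2.1, q.2.2) else q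
  invFun q := by classical exact if q.1 ∈ F then (q.1, π.symm q.2.1, q.2.2) else q
  left_inv q := by
    classical
    by_cases h : q.1 ∈ F
    · simp [h]
    · simp [h]
  right_inv q := by
    classical
    by_cases h : q.1 ∈ F
    · simp [h]
    · simp [h]

theorem blockPerm_apply_of_mem {F : Set ℝ} (π : Equiv.Perm ℕ) {α : ℝ} (h : α ∈ F) (n : ℕ)
    (b : Bool) : blockPerm F π (α, n, b) = (α, π n, b) := by
  classical
  exact if_pos h

theorem blockPerm_apply_of_notMem {F : Set ℝ} (π : Equiv.Perm ℕ) {α : ℝ} (h : α ∉ F) (n : ℕ)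
    (b : Bool) : blockPerm F π (α, n, b) = (α, n, b) := by
  classical
  exact if_neg h

/-- The finitary permutation `s_F`: it swaps the `ℕ`-coordinates `0` and `1` on the blocks
`α ∈ F`. -/
noncomputable def sF (F : Finset ℝ) : FinPerm Idx :=
  ⟨blockPerm (F : Set ℝ) (Equiv.swap 0 1), by
    have hfin : ((F : Set ℝ) ×ˢ (({0, 1} : Set ℕ) ×ˢ (Set.univ : Set Bool))).Finite :=
      F.finite_toSet.prod ((Set.toFinite _).prod Set.finite_univ)
    refine hfin.subset ?_
    rintro ⟨α, n, b⟩ hi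
    by_cases hα : α ∈ (F : Set ℝ)
    · refine ⟨hα, ?_, Set.mem_univ _⟩
      by_contra hcon
      apply hi
      rw [blockPerm_apply_of_mem _ hα, Equiv.swap_apply_of_ne_of_ne]
      · intro h
        exact hcon (Or.inl h)
      · intro h
        exact hcon (Or.inr h)
    · exact absurd (blockPerm_apply_of_notMem _ hα n b) hi⟩

theorem sF_mul {F : Finset ℝ} {α : ℝ} (h : α ∈ F) : sF F * tt α 0 = tt α 1 * sF F := by
  have h1 : conjFin (blockPerm (F : Set ℝ) (Equiv.swap 0 1)) (tt α 0) = tt α 1 := by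
    unfold tt
    rw [conjFin_finSwap, blockPerm_apply_of_mem _ (by exact_mod_cast h),
      blockPerm_apply_of_mem _ (by exact_mod_cast h), Equiv.swap_apply_left]
  rw [← h1]
  apply Subtype.ext
  change _ = (blockPerm (F : Set ℝ) (Equiv.swap 0 1) * (tt α 0 : Equiv.Perm Idx) *
    (blockPerm (F : Set ℝ) (Equiv.swap 0 1))⁻¹) * blockPerm (F : Set ℝ) (Equiv.swap 0 1)
  rw [inv_mul_cancel_right]
  rfl

/-- The parameter set. -/
def BB : Set MM.Op := {x | ∃ α : ℝ, x = leftT (tt α 0) ∨ x = leftT (tt α 1)}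

/-- The parameters `a_α = λ(t_{α,0})`. -/
noncomputable def pa (α : ℝ) : BB := ⟨leftT (tt α 0), α, Or.inl rfl⟩

/-- The parameters `b_α = λ(t_{α,1})`. -/
noncomputable def pb (α : ℝ) : BB := ⟨leftT (tt α 1), α, Or.inr rfl⟩

theorem BB_mem {x : MM.Op} (hx : x ∈ BB) : x ∈ MM.alg := by
  obtain ⟨α, rfl | rfl⟩ := hx
  · exact leftT_mem _
  · exact leftT_mem _

theorem BB_norm {x : MM.Op} (hx : x ∈ BB) : ‖x‖ ≤ 1 := by
  obtain ⟨α, rfl | rfl⟩ := hx
  · exact norm_leftT_le _
  · exact norm_leftT_le _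

/-- Assignments used. -/
noncomputable def asg (F : Finset ℝ) : Fin 1 ⊕ BB → MM.Op :=
  Sum.elim (fun _ => leftT (sF F)) (fun b => b.1)

/-- The ultrafilter used. -/
noncomputable def UU : Ultrafilter (Finset ℝ) := Ultrafilter.of Filter.atTop

theorem UU_mem (α : ℝ) : {F : Finset ℝ | α ∈ F} ∈ UU := by
  refine Ultrafilter.of_le Filter.atTop ?_
  rw [Filter.mem_atTop_sets]
  exact ⟨{α}, fun F hF => hF (Finset.mem_singleton_self α)⟩

theorem exists_limit (φ : Fml (Fin 1 ⊕ BB) 0) :
    ∃ r : ℝ, Filter.Tendsto (fun F => val MM φ (asg F)) UU (nhds r) := by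
  obtain ⟨C, hC⟩ := Fml.exists_bound MM φ (fun _ => 1) (fun _ => 1)
  have h1 : ∀ F, val MM φ (asg F) ∈ Set.Icc (-C) C := by
    intro F
    refine abs_le.mp (hC _ _ ?_ (fun i => i.elim0) ?_ (fun i => i.elim0))
    · rintro (i | i)
      · exact leftT_mem _
      · exact BB_mem i.2
    · rintro (i | i)
      · exact norm_leftT_le _
      · exact BB_norm i.2
  obtain ⟨r, _, hr⟩ := (isCompact_Icc (a := -C) (b := C)).ultrafilter_le_nhds
    (UU.map fun F => val MM φ (asg F)) (by
      rw [Filter.le_principal_iff]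
      exact Filter.mem_map.mpr (Filter.univ_mem' h1))
  exact ⟨r, hr⟩

/-- The type. -/
noncomputable def pp (φ : Fml (Fin 1 ⊕ BB) 0) : ℝ := (exists_limit φ).choose

theorem pp_spec (φ : Fml (Fin 1 ⊕ BB) 0) :
    Filter.Tendsto (fun F => val MM φ (asg F)) UU (nhds (pp φ)) := (exists_limit φ).choose_spec

theorem pp_isType : IsType MM BB (fun _ : Fin 1 => 1) pp := by
  intro Φ ε hε
  have h : ∀ φ ∈ Φ, {F : Finset ℝ | |val MM φ (asg F) - pp φ| < ε} ∈ UU := by
    intro φ _
    have := (Metric.tendsto_nhds.mp (pp_spec φ)) ε hε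
    exact this
  have h2 : {F : Finset ℝ | ∀ φ ∈ Φ, |val MM φ (asg F) - pp φ| < ε} ∈ UU := by
    have := (Filter.biInter_finset_mem Φ).mpr h
    refine Filter.mem_of_superset this ?_
    intro F hF φ hφ
    have := Set.mem_iInter₂.mp hF φ hφ
    exact this
  obtain ⟨F, hF⟩ := Filter.nonempty_of_mem h2
  refine ⟨fun _ => ⟨leftT (sF F), leftT_mem _, ?_⟩, hF⟩
  have := norm_leftT_le (sF F)
  exact this.trans (by norm_num)

/-- The formula `‖x a_α - b_α x‖₂`. -/
noncomputable def phi (α : ℝ) : Fml (Fin 1 ⊕ BB) 0 :=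
  .dist (.mul (.var (Sum.inl (Sum.inl 0))) (.var (Sum.inl (Sum.inr (pa α)))))
    (.mul (.var (Sum.inl (Sum.inr (pb α)))) (.var (Sum.inl (Sum.inl 0))))

/-- The formula `‖x x⋆ - 1‖₂`. -/
noncomputable def psi : Fml (Fin 1 ⊕ BB) 0 :=
  .dist (.mul (.var (Sum.inl (Sum.inl 0))) (.adj (.var (Sum.inl (Sum.inl 0))))) .one

theorem val_phi (α : ℝ) (x : Fin 1 → MM.Op) (f : BB → MM.Op) :
    val MM (phi α) (Sum.elim x f) = MM.norm2 (x 0 * f (pa α) - f (pb α) * x 0) := rfl

theorem val_psi (x : Fin 1 → MM.Op) (f : BB → MM.Op) :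
    val MM psi (Sum.elim x f) = MM.norm2 (x 0 * star (x 0) - 1) := rfl

theorem pp_phi (α : ℝ) : pp (phi α) = 0 := by
  refine tendsto_nhds_unique (pp_spec (phi α)) ?_
  refine Filter.Tendsto.congr' ?_ tendsto_const_nhds
  refine Filter.mem_of_superset (UU_mem α) ?_
  intro F hF
  change (0 : ℝ) = val MM (phi α) (asg F)
  unfold asg
  rw [val_phi]
  change (0 : ℝ) = MM.norm2 ((leftT (sF F) * leftT (tt α 0) - leftT (tt α 1) * leftT (sF F) :
    ell2 (FinPerm Idx) →L[ℂ] ell2 (FinPerm Idx)))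
  rw [← leftT_mul, ← leftT_mul, sF_mul hF, sub_self]
  exact norm2_zero.symm

theorem pp_psi : pp psi = 0 := by
  refine tendsto_nhds_unique (pp_spec psi) ?_
  refine Filter.Tendsto.congr' ?_ tendsto_const_nhds
  refine Filter.mem_of_superset Filter.univ_mem ?_
  intro F _
  change (0 : ℝ) = val MM psi (asg F)
  unfold asg
  rw [val_psi]
  change (0 : ℝ) = MM.norm2 ((leftT (sF F) * star (leftT (sF F)) - 1 :
    ell2 (FinPerm Idx) →L[ℂ] ell2 (FinPerm Idx)))
  rw [leftT_star, ← leftT_mul, mul_inv_cancel, leftT_one, sub_self]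
  exact norm2_zero.symm

open Classical in
/-- The copies of the parameter set. -/
noncomputable def ff (α : ℝ) (i : ℕ) (b : BB) : MM.Op :=
  if b = pb α then leftT (tt α (i + 1)) else b.1

theorem exists_perm {m : ℕ} (i j : Fin m → ℕ) (hi : StrictMono i) (hj : StrictMono j) :
    ∃ π : Equiv.Perm ℕ, π 0 = 0 ∧ ∀ q, π (i q + 1) = j q + 1 := by
  have emb : ∀ k : Fin m → ℕ, StrictMono k →
      Function.Injective (Fin.cons 0 (fun q => k q + 1) : Fin (m + 1) → ℕ) := by
    intro k hk
    rw [Fin.cons_injective_iff]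
    refine ⟨?_, fun a b hab => hk.injective (Nat.succ_injective hab)⟩
    rintro ⟨q, hq⟩
    exact absurd hq (Nat.succ_ne_zero _)
  have hpre : MulAction.IsMultiplyPretransitive (Equiv.Perm ℕ) ℕ (m + 1) :=
    Equiv.Perm.isMultiplyPretransitive ℕ (m + 1)
  rw [MulAction.isMultiplyPretransitive_iff] at hpre
  obtain ⟨π, hπ⟩ := hpre ⟨_, emb i hi⟩ ⟨_, emb j hj⟩
  refine ⟨π, ?_, fun q => ?_⟩
  · have := DFunLike.congr_fun hπ 0
    simpa using this
  · have := DFunLike.congr_fun hπ q.succ
    simpa using this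

theorem block_leftT_same (α : ℝ) (π : Equiv.Perm ℕ) (n : ℕ) :
    (groupAut (conjFin (blockPerm {α} π))).θ (leftT (tt α n)) = leftT (tt α (π n)) := by
  rw [groupAut_leftT]
  congr 1
  unfold tt
  rw [conjFin_finSwap, blockPerm_apply_of_mem _ (Set.mem_singleton α),
    blockPerm_apply_of_mem _ (Set.mem_singleton α)]

theorem block_leftT_other {α β : ℝ} (h : β ≠ α) (π : Equiv.Perm ℕ) (n : ℕ) :
    (groupAut (conjFin (blockPerm {α} π))).θ (leftT (tt β n)) = leftT (tt β n) := by
  rw [groupAut_leftT]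
  congr 1
  unfold tt
  have h' : β ∉ ({α} : Set ℝ) := fun hcon => h (Set.mem_singleton_iff.mp hcon)
  rw [conjFin_finSwap, blockPerm_apply_of_notMem _ h', blockPerm_apply_of_notMem _ h']

theorem eq_pb_iff (α : ℝ) (b : BB) : b = pb α ↔ b.1 = leftT (tt α 1) :=
  ⟨fun h => h ▸ rfl, fun h => Subtype.ext h⟩

theorem fix_of_ne {α : ℝ} {π : Equiv.Perm ℕ} (hπ : π 0 = 0) {x : MM.Op} (hx : x ∈ BB)
    (hne : x ≠ leftT (tt α 1)) : (groupAut (conjFin (blockPerm {α} π))).θ x = x := by
  obtain ⟨β, rfl | rfl⟩ := hx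
  · by_cases h : β = α
    · subst h
      rw [block_leftT_same, hπ]
    · exact block_leftT_other h π 0
  · by_cases h : β = α
    · subst h
      exact absurd rfl hne
    · exact block_leftT_other h π 1

theorem ff_indiscernible {A : Set MM.Op} (hA : A ⊆ BB) {α : ℝ} (hα : leftT (tt α 1) ∉ A) :
    Indiscernible MM (fun a : A => a.1) (ff α) := by
  intro m i j hi hj φ
  obtain ⟨π, hπ0, hπ⟩ := exists_perm i j hi hj
  rw [← (groupAut (conjFin (blockPerm {α} π))).val_eq]
  congr 1
  funext q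
  rcases q with a | ⟨q, b⟩
  · change (groupAut (conjFin (blockPerm {α} π))).θ a.1 = a.1
    exact fix_of_ne hπ0 (hA a.2) fun h => hα (h ▸ a.2)
  · change (groupAut (conjFin (blockPerm {α} π))).θ (ff α (i q) b) = ff α (j q) b
    unfold ff
    by_cases hb : b = pb α
    · rw [if_pos hb, if_pos hb, block_leftT_same, hπ]
    · rw [if_neg hb, if_neg hb]
      exact fix_of_ne hπ0 b.2 fun h => hb ((eq_pb_iff α b).mpr h)

theorem ff_inconsistent (α : ℝ) : ¬ UnionConsistent MM (fun _ : Fin 1 => 1) pp (ff α) := by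
  classical
  intro h
  obtain ⟨x, hx⟩ := h {phi α, psi} 2 (1 / 5) (by norm_num)
  have hpa : pa α ≠ pb α := by
    intro h
    have h1 : (leftT (tt α 0) : ell2 (FinPerm Idx) →L[ℂ] _) = leftT (tt α 1) :=
      congrArg Subtype.val h
    have h2 := (tt_inj (leftT_injective h1)).2
    exact absurd h2 (by norm_num)
  have h1 := hx (phi α) (Finset.mem_insert_self _ _) 0 (by norm_num)
  have h2 := hx (phi α) (Finset.mem_insert_self _ _) 1 (by norm_num)
  have h3 := hx psi (Finset.mem_insert_of_mem (Finset.mem_singleton_self _)) 0 (by norm_num)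
  rw [val_phi, pp_phi, sub_zero, abs_of_nonneg (norm2_nonneg _)] at h1 h2
  rw [val_psi, pp_psi, sub_zero, abs_of_nonneg (norm2_nonneg _)] at h3
  have e1 : ∀ i, ff α i (pa α) = (pa α).1 := fun i => if_neg hpa
  have e2 : ∀ i, ff α i (pb α) = leftT (tt α (i + 1)) := fun i => if_pos rfl
  rw [e1, e2] at h1 h2
  set X : MM.Op := (x 0).1 with hX
  have hXmem : X ∈ MM.alg := (x 0).2.1
  have hXn : ‖X‖ ≤ 1 := by
    have := (x 0).2.2
    simpa using this
  set a : MM.Op := (pa α).1 with ha
  have hgen : ∀ u v : MM.Op, u ∈ MM.alg → v ∈ MM.alg → ‖u‖ ≤ 1 → ‖v‖ ≤ 1 →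
      MM.norm2 (X * a - u * X) < 1 / 5 → MM.norm2 (X * a - v * X) < 1 / 5 →
      MM.norm2 (u - v) < 1 := by
    intro u v hu hv hun hvn g1 g2
    have k1 : MM.norm2 ((u - v) * X) ≤ 2 / 5 := by
      have e : (u - v) * X = (X * a - v * X) + (-1 : ℂ) • (X * a - u * X) := by
        rw [sub_mul, neg_one_smul]
        abel
      rw [e]
      refine (norm2_add _ _).trans ?_
      rw [norm2_smul, norm_neg, norm_one, one_mul]
      linarith
    have k2 : MM.norm2 ((u - v) * X * star X) ≤ 2 / 5 := by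
      refine (norm2_mul_right (mul_mem (sub_mem hu hv) hXmem) (star_mem hXmem)).trans ?_
      rw [norm_star]
      have := norm2_nonneg ((u - v) * X)
      nlinarith [norm_nonneg X]
    have k3 : MM.norm2 ((u - v) * (X * star X - 1)) ≤ 2 / 5 := by
      refine (norm2_mul_left _ _).trans ?_
      have k4 : ‖u - v‖ ≤ 2 := (norm_sub_le _ _).trans (by linarith)
      nlinarith [norm_nonneg (u - v), norm2_nonneg (X * star X - 1)]
    have e : u - v = (u - v) * X * star X + (-1 : ℂ) • ((u - v) * (X * star X - 1)) := by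
      rw [mul_sub, mul_one, neg_one_smul, mul_assoc]
      abel
    rw [e]
    refine (norm2_add _ _).trans_lt ?_
    rw [norm2_smul, norm_neg, norm_one, one_mul]
    linarith
  have h4 := hgen _ _ (leftT_mem _) (leftT_mem _) (norm_leftT_le _) (norm_leftT_le _) h1 h2
  have h5 : tt α (0 + 1) ≠ tt α (1 + 1) := by
    intro h
    exact absurd (tt_inj h).2 (by norm_num)
  exact absurd (norm2_leftT_sub h5) (not_le.mpr h4)

/-- The identity as an elementary embedding. -/
def idEmb (M : TracialVN) : ElemEmb M M where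
  toFun x := x
  mem _ hx := hx
  norm_le _ _ _ h := h
  val_eq _ _ _ _ := rfl

theorem not_simple : ¬ IsSimple (theory hyperfiniteR) := by
  intro hs
  obtain ⟨A, hAB, hsep, hnd⟩ := hs MM (models_theory Idx) BB (fun x hx => BB_mem hx) 1
    (fun _ => 1) pp pp_isType
  -- `A` is countable
  obtain ⟨C, hCA, hC, hdense⟩ := hsep
  have hgrp : ∀ x ∈ BB, ∃ g : FinPerm Idx, x = leftT g := by
    rintro x ⟨α, h | h⟩
    · exact ⟨_, h⟩
    · exact ⟨_, h⟩
  have hAC : A = C := by
    refine Set.Subset.antisymm ?_ hCA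
    intro a ha
    obtain ⟨c, hc, hac⟩ := hdense a ha 1 one_pos
    obtain ⟨g, hg⟩ := hgrp a (hAB ha)
    obtain ⟨h, hh⟩ := hgrp c (hAB (hCA hc))
    by_cases hgh : g = h
    · rw [hg, hgh, ← hh]
      exact hc
    · rw [hg, hh] at hac
      exact absurd (norm2_leftT_sub hgh) (not_le.mpr hac)
  rw [← hAC] at hC
  obtain ⟨α, hα⟩ : ∃ α : ℝ, (leftT (tt α 1) : MM.Op) ∉ A := by
    by_contra hcon
    push Not at hcon
    have hinj : Function.Injective fun α : ℝ => (leftT (tt α 1) : MM.Op) := by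
      intro α β h
      exact (tt_inj (leftT_injective h)).1
    have huniv : (Set.univ : Set ℝ).Countable := by
      refine Set.Countable.mono ?_ (hC.preimage hinj)
      intro α _
      exact hcon α
    exact not_countable_iff.mpr (inferInstance : Uncountable ℝ) (Set.countable_univ_iff.mp huniv)
  refine hnd ⟨MM, idEmb MM, ff α, ?_, ?_, ff_indiscernible hAB hα, ff_inconsistent α⟩
  · intro i b
    by_cases hb : b = pb α
    · subst hb
      have e : ff α i (pb α) = leftT (tt α (i + 1)) := if_pos rfl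
      rw [e]
      refine ⟨leftT_mem _, fun n hn => ?_⟩
      rcases Nat.eq_zero_or_pos n with h0 | h0
      · exfalso
        subst h0
        have h1 : ‖(pb α).1‖ = 0 := le_antisymm (by simpa using hn) (norm_nonneg _)
        have h2 : (pb α).1 = 0 := norm_eq_zero.mp h1
        have h4 : ‖leftT (tt α 1) (delta 1)‖ = 0 := by
          have : (leftT (tt α 1) : ell2 (FinPerm Idx) →L[ℂ] _) = 0 := h2
          rw [this, zero_apply, norm_zero]
        rw [leftT_delta, norm_eq_zero] at h4
        have h5 : ((delta (tt α 1 * 1) : ell2 (FinPerm Idx)) : FinPerm Idx → ℂ) (tt α 1 * 1) = 0 := by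
          rw [h4]
          rfl
        rw [delta_apply, if_pos rfl] at h5
        exact one_ne_zero h5
      · have h1 : (1 : ℝ) ≤ n := by exact_mod_cast h0
        exact (norm_leftT_le _).trans h1
    · have e : ff α i b = b.1 := if_neg hb
      rw [e]
      exact ⟨BB_mem b.2, fun n hn => hn⟩
  · intro b
    by_cases hb : b = pb α
    · subst hb
      exact if_pos rfl
    · exact if_neg hb

end Main

end Pool.Agent.TVN
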